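import Mathlib
import Pool.Agent.P.MP_c2502c_co.Defs

-- part Pool.Agent.P.MP_c2502c_co.Comb
section

namespace Pool.Agent.P.MP_c2502c_co

open Finset

/-- type of the steps: nested strands of geometrically decreasing length, period 222222222 -/
def strandUp (i : ℕ) : Prop :=
  i % 222222222 < 200000000 ∨
  (220000000 ≤ i % 222222222 ∧ i % 222222222 < 222000000) ∨
  (222200000 ≤ i % 222222222 ∧ i % 222222222 < 222220000) ∨
  (222222000 ≤ i % 222222222 ∧ i % 222222222 < 222222200) ∨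
  222222220 ≤ i % 222222222

lemma up_strand (ρ : ℕ → ℤ) (a m : ℕ)
    (h : ∀ i, a ≤ i → i + 2 ≤ a + 2 * m → ρ i + 1 ≤ ρ (i + 2)) : ρ a + m ≤ ρ (a + 2 * m) := by
  induction m with
  | zero => simp
  | succ m ih =>
    have h1 := ih (fun i hi hi' => h i hi (by omega))
    have h2 := h (a + 2 * m) (by omega) (by omega)
    have : a + 2 * (m + 1) = a + 2 * m + 2 := by ring
    rw [this]; push_cast; linarith

lemma lip_strand (ρ : ℕ → ℤ) (a l : ℕ)
    (h : ∀ i, a ≤ i → i < a + l → ρ (i + 1) ≤ ρ i + 5 ∧ ρ i ≤ ρ (i + 1) + 5) :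
    ρ (a + l) ≤ ρ a + 5 * l ∧ ρ a ≤ ρ (a + l) + 5 * l := by
  induction l with
  | zero => simp
  | succ l ih =>
    have h1 := ih (fun i hi hi' => h i hi (by omega))
    have h2 := h (a + l) (by omega) (by omega)
    have : a + (l + 1) = a + l + 1 := by ring
    rw [this]; push_cast; constructor <;> linarith [h1.1, h1.2, h2.1, h2.2]

lemma ivt_up (ρ : ℕ → ℤ) (a l : ℕ) (z : ℤ) (hl : 0 < l) (h1 : ρ a ≤ z) (h2 : z ≤ ρ (a + l)) :
    ∃ i, a ≤ i ∧ i < a + l ∧ ρ i ≤ z ∧ z ≤ ρ (i + 1) := by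
  induction l with
  | zero => omega
  | succ l ih =>
    by_cases hz : ρ (a + l) ≤ z
    · exact ⟨a + l, by omega, by omega, hz, by simpa [add_assoc] using h2⟩
    · rcases Nat.eq_zero_or_pos l with rfl | hl'
      · simp at hz; omega
      · obtain ⟨i, hi1, hi2, hi3⟩ := ih hl' (by omega)
        exact ⟨i, hi1, by omega, hi3⟩

lemma ivt_down (ρ : ℕ → ℤ) (a l : ℕ) (z : ℤ) (hl : 0 < l) (h1 : z ≤ ρ a) (h2 : ρ (a + l) ≤ z) :
    ∃ i, a ≤ i ∧ i < a + l ∧ ρ (i + 1) ≤ z ∧ z ≤ ρ i := by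
  obtain ⟨i, h3, h4, h5, h6⟩ := ivt_up (fun i => - ρ i) a l (-z) hl (by simpa) (by simpa)
  exact ⟨i, h3, h4, by simpa using h6, by simpa using h5⟩

/-- nine nested strands cover the last point nine times -/
lemma nest (ρ : ℕ → ℤ) (b : ℕ)
    (hl : ∀ i, b * 222222222 ≤ i → i < b * 222222222 + 222222222 →
      ρ (i + 1) ≤ ρ i + 5 ∧ ρ i ≤ ρ (i + 1) + 5)
    (hu : ∀ i, b * 222222222 ≤ i → i + 2 ≤ b * 222222222 + 222222222 →
      strandUp i → strandUp (i + 1) → ρ i + 1 ≤ ρ (i + 2))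
    (hd : ∀ i, b * 222222222 ≤ i → i + 2 ≤ b * 222222222 + 222222222 →
      ¬ strandUp i → ¬ strandUp (i + 1) → ρ (i + 2) + 1 ≤ ρ i) :
    ∃ S : Finset ℕ, S.card = 9 ∧ ∀ i ∈ S, i < b * 222222222 + 222222222 ∧
      ((ρ i ≤ ρ (b * 222222222 + 222222222) ∧ ρ (b * 222222222 + 222222222) ≤ ρ (i + 1)) ∨
       (ρ (i + 1) ≤ ρ (b * 222222222 + 222222222) ∧ ρ (b * 222222222 + 222222222) ≤ ρ i)) := by
  obtain ⟨a, ha⟩ : ∃ a, a = b * 222222222 := ⟨_, rfl⟩
  rw [← ha] at hl hu hd ⊢
  have U : ∀ o m : ℕ, o + 2 * m ≤ 222222222 →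
      (∀ i, a + o ≤ i → i < a + o + 2 * m → strandUp i) →
      ρ (a + o) + m ≤ ρ (a + o + 2 * m) ∧ ρ (a + o + 2 * m) ≤ ρ (a + o) + 5 * (2 * m : ℕ) := by
    intro o m hm hs
    refine ⟨up_strand ρ (a + o) m fun i h1 h2 =>
      hu i (by omega) (by omega) (hs i h1 (by omega)) (hs (i + 1) (by omega) (by omega)), ?_⟩
    exact (lip_strand ρ (a + o) (2 * m) fun i h1 h2 => hl i (by omega) (by omega)).1
  have D : ∀ o m : ℕ, o + 2 * m ≤ 222222222 →
      (∀ i, a + o ≤ i → i < a + o + 2 * m → ¬ strandUp i) →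
      ρ (a + o + 2 * m) + m ≤ ρ (a + o) ∧ ρ (a + o) ≤ ρ (a + o + 2 * m) + 5 * (2 * m : ℕ) := by
    intro o m hm hs
    refine ⟨?_, (lip_strand ρ (a + o) (2 * m) fun i h1 h2 => hl i (by omega) (by omega)).2⟩
    have := up_strand (fun i => - ρ i) (a + o) m fun i h1 h2 => by
      have := hd i (by omega) (by omega) (hs i h1 (by omega)) (hs (i + 1) (by omega) (by omega))
      show - ρ i + 1 ≤ - ρ (i + 2)
      linarith
    linarith
  have s0 := U 0 100000000 (by norm_num) (fun i h1 h2 => by unfold strandUp; omega)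
  have s1 := D 200000000 10000000 (by norm_num) (fun i h1 h2 => by unfold strandUp; omega)
  have s2 := U 220000000 1000000 (by norm_num) (fun i h1 h2 => by unfold strandUp; omega)
  have s3 := D 222000000 100000 (by norm_num) (fun i h1 h2 => by unfold strandUp; omega)
  have s4 := U 222200000 10000 (by norm_num) (fun i h1 h2 => by unfold strandUp; omega)
  have s5 := D 222220000 1000 (by norm_num) (fun i h1 h2 => by unfold strandUp; omega)
  have s6 := U 222222000 100 (by norm_num) (fun i h1 h2 => by unfold strandUp; omega)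
  have s7 := D 222222200 10 (by norm_num) (fun i h1 h2 => by unfold strandUp; omega)
  have s8 := U 222222220 1 (by norm_num) (fun i h1 h2 => by unfold strandUp; omega)
  simp only [add_assoc, Nat.reduceMul, Nat.reduceAdd, Nat.cast_ofNat, Nat.cast_one, add_zero]
    at s0 s1 s2 s3 s4 s5 s6 s7 s8
  obtain ⟨z, hz⟩ : ∃ z, z = ρ (a + 222222222) := ⟨_, rfl⟩
  rw [← hz] at s8 ⊢
  obtain ⟨i0, a0, b0, c0⟩ := ivt_up ρ a 200000000 z (by norm_num) (by omega) (by omega)
  obtain ⟨i1, a1, b1, c1⟩ := ivt_down ρ (a + 200000000) 20000000 z (by norm_num) (by omega)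
    (by simp only [add_assoc, Nat.reduceAdd]; omega)
  obtain ⟨i2, a2, b2, c2⟩ := ivt_up ρ (a + 220000000) 2000000 z (by norm_num) (by omega)
    (by simp only [add_assoc, Nat.reduceAdd]; omega)
  obtain ⟨i3, a3, b3, c3⟩ := ivt_down ρ (a + 222000000) 200000 z (by norm_num) (by omega)
    (by simp only [add_assoc, Nat.reduceAdd]; omega)
  obtain ⟨i4, a4, b4, c4⟩ := ivt_up ρ (a + 222200000) 20000 z (by norm_num) (by omega)
    (by simp only [add_assoc, Nat.reduceAdd]; omega)
  obtain ⟨i5, a5, b5, c5⟩ := ivt_down ρ (a + 222220000) 2000 z (by norm_num) (by omega)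
    (by simp only [add_assoc, Nat.reduceAdd]; omega)
  obtain ⟨i6, a6, b6, c6⟩ := ivt_up ρ (a + 222222000) 200 z (by norm_num) (by omega)
    (by simp only [add_assoc, Nat.reduceAdd]; omega)
  obtain ⟨i7, a7, b7, c7⟩ := ivt_down ρ (a + 222222200) 20 z (by norm_num) (by omega)
    (by simp only [add_assoc, Nat.reduceAdd]; omega)
  obtain ⟨i8, a8, b8, c8⟩ := ivt_up ρ (a + 222222220) 2 z (by norm_num) (by omega)
    (by simp only [add_assoc, Nat.reduceAdd]; omega)
  refine ⟨{i0, i1, i2, i3, i4, i5, i6, i7, i8}, ?_, ?_⟩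
  · rw [card_insert_of_notMem (by simp; omega), card_insert_of_notMem (by simp; omega),
      card_insert_of_notMem (by simp; omega), card_insert_of_notMem (by simp; omega),
      card_insert_of_notMem (by simp; omega), card_insert_of_notMem (by simp; omega),
      card_insert_of_notMem (by simp; omega), card_insert_of_notMem (by simp; omega),
      card_singleton]
  · intro i hi
    simp only [mem_insert, mem_singleton] at hi
    rcases hi with rfl | rfl | rfl | rfl | rfl | rfl | rfl | rfl | rfl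
    · exact ⟨by omega, Or.inl c0⟩
    · exact ⟨by omega, Or.inr c1⟩
    · exact ⟨by omega, Or.inl c2⟩
    · exact ⟨by omega, Or.inr c3⟩
    · exact ⟨by omega, Or.inl c4⟩
    · exact ⟨by omega, Or.inr c5⟩
    · exact ⟨by omega, Or.inl c6⟩
    · exact ⟨by omega, Or.inr c7⟩
    · exact ⟨by omega, Or.inl c8⟩

/-- `s` lies strictly between `i` and `i+1` -/
def Btw {L : Type} [LinearOrder L] (K : ℕ → L) (i s : ℕ) : Prop :=
  (K i < K s ∧ K s < K (i + 1)) ∨ (K (i + 1) < K s ∧ K s < K i)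

open Classical in
theorem comb {L : Type} [LinearOrder L] (N : ℕ) (hN : N = 1999999998) (K : ℕ → L)
    (hK : ∀ i ≤ N, ∀ j ≤ N, K i = K j → i = j)
    (side : ℕ → Prop) (hside : ∀ i ≤ N, ∀ j ≤ N, side i → ¬ side j → K i < K j)
    (A1 : ∀ i < N, ((range (N + 1)).filter (fun s => Btw K i s)).card ≤ 4)
    (A2 : ∀ s ≤ N, ((range N).filter (fun i => Btw K i s)).card ≤ 6)
    (A3 : ∀ i, i + 2 ≤ N → (strandUp i ↔ strandUp (i + 1)) → (side i ↔ side (i + 1)) →
      (side (i + 1) ↔ side (i + 2)) →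
      ((strandUp i ↔ side i) → K i < K (i + 2)) ∧ (¬ (strandUp i ↔ side i) → K (i + 2) < K i)) :
    False := by
  set r : ℕ → ℕ := fun j => ((range (N + 1)).filter (fun i => K i < K j)).card with hr
  have r_lt : ∀ i ≤ N, ∀ j, K i < K j → r i < r j := by
    intro i hi j hij
    apply card_lt_card
    refine ⟨fun x hx => ?_, fun hx => ?_⟩
    · simp only [mem_filter] at hx ⊢
      exact ⟨hx.1, hx.2.trans hij⟩
    · have : i ∈ (range (N + 1)).filter (fun x => K x < K i) :=
        hx (mem_filter.2 ⟨mem_range.2 (by omega), hij⟩)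
      simp at this
  have r_le : ∀ i ≤ N, ∀ j ≤ N, r i ≤ r j → K i ≤ K j := by
    intro i hi j hj h
    by_contra hc
    have := r_lt j hj i (not_le.1 hc)
    omega
  have r_gap : ∀ i ≤ N, ∀ j, ∀ T : Finset ℕ, T.card ≤ 4 →
      (∀ s ≤ N, K i < K s → K s < K j → s ∈ T) → r j ≤ r i + 5 := by
    intro i hi j T hT hb
    have : (range (N + 1)).filter (fun x => K x < K j) ⊆
        (range (N + 1)).filter (fun x => K x < K i) ∪ insert i T := by
      intro x hx
      simp only [mem_filter, mem_range, mem_union, mem_insert] at hx ⊢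
      rcases lt_trichotomy (K x) (K i) with h | h | h
      · exact Or.inl ⟨hx.1, h⟩
      · exact Or.inr (Or.inl (hK x (by omega) i hi h))
      · exact Or.inr (Or.inr (hb x (by omega) h hx.2))
    have h1 := card_le_card this
    have h2 := card_union_le ((range (N + 1)).filter (fun x => K x < K i)) (insert i T)
    have h3 := card_insert_le i T
    simp only [hr]
    omega
  have r_step : ∀ i < N, r (i + 1) ≤ r i + 5 ∧ r i ≤ r (i + 1) + 5 := by
    intro i hi
    constructor
    · refine r_gap i (by omega) (i + 1) _ (A1 i hi) fun s hs h1 h2 => ?_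
      exact mem_filter.2 ⟨mem_range.2 (by omega), Or.inl ⟨h1, h2⟩⟩
    · refine r_gap (i + 1) (by omega) i _ (A1 i hi) fun s hs h1 h2 => ?_
      exact mem_filter.2 ⟨mem_range.2 (by omega), Or.inr ⟨h1, h2⟩⟩
  have cover : ∀ s ≤ N, ∀ S : Finset ℕ, (∀ i ∈ S, i < N ∧
      ((K i ≤ K s ∧ K s ≤ K (i + 1)) ∨ (K (i + 1) ≤ K s ∧ K s ≤ K i))) → S.card ≤ 8 := by
    intro s hs S hS
    have : S ⊆ (range N).filter (fun i => Btw K i s) ∪ {s, s - 1} := by
      intro i hi
      obtain ⟨h1, h2⟩ := hS i hi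
      simp only [mem_union, mem_filter, mem_range, mem_insert, mem_singleton]
      by_cases e1 : K i = K s
      · exact Or.inr (Or.inl (hK i (by omega) s hs e1))
      by_cases e2 : K (i + 1) = K s
      · have := hK (i + 1) (by omega) s hs e2
        exact Or.inr (Or.inr (by omega))
      refine Or.inl ⟨h1, ?_⟩
      rcases h2 with h2 | h2
      · exact Or.inl ⟨lt_of_le_of_ne h2.1 e1, lt_of_le_of_ne h2.2 (Ne.symm e2)⟩
      · exact Or.inr ⟨lt_of_le_of_ne h2.1 e2, lt_of_le_of_ne h2.2 (Ne.symm e1)⟩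
    have h1 := card_le_card this
    have h2 := card_union_le ((range N).filter (fun i => Btw K i s)) {s, s - 1}
    have h3 : ({s, s - 1} : Finset ℕ).card ≤ 2 := card_le_two
    have h4 := A2 s hs
    omega
  have block : ∃ b < 9, ∀ i, b * 222222222 ≤ i → i < b * 222222222 + 222222222 →
      (side i ↔ side (i + 1)) := by
    by_contra hc
    push Not at hc
    choose! f hf using hc
    have hne : ((range (N + 1)).filter side).Nonempty := by
      obtain ⟨h1, h2, h3⟩ := hf 0 (by norm_num)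
      rcases h3 with h3 | h3
      · exact ⟨f 0, mem_filter.2 ⟨mem_range.2 (by omega), h3.1⟩⟩
      · exact ⟨f 0 + 1, mem_filter.2 ⟨mem_range.2 (by omega), h3.2⟩⟩
    obtain ⟨s, hs, hmax⟩ := exists_max_image _ K hne
    simp only [mem_filter, mem_range] at hs hmax
    have h8 := cover s (by omega) ((range 9).image f) (by
      intro i hi
      obtain ⟨b, hb, rfl⟩ := mem_image.1 hi
      have hb := mem_range.1 hb
      obtain ⟨h1, h2, h3⟩ := hf b hb
      refine ⟨by omega, ?_⟩
      rcases h3 with h3 | h3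
      · exact Or.inl ⟨hmax _ ⟨by omega, h3.1⟩, (hside s (by omega) _ (by omega) hs.2 h3.2).le⟩
      · exact Or.inr ⟨hmax _ ⟨by omega, h3.2⟩, (hside s (by omega) _ (by omega) hs.2 h3.1).le⟩)
    rw [card_image_of_injOn] at h8
    · simp at h8
    · intro b hb b' hb' hbb
      have hb := mem_range.1 (mem_coe.1 hb)
      have hb' := mem_range.1 (mem_coe.1 hb')
      obtain ⟨h1, h2, -⟩ := hf b hb
      obtain ⟨h3, h4, -⟩ := hf b' hb'
      omega
  obtain ⟨b, hb, hsw⟩ := block
  have hconst : ∀ l, l ≤ 222222222 → (side (b * 222222222 + l) ↔ side (b * 222222222)) := by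
    intro l
    induction l with
    | zero => simp
    | succ l ih =>
      intro hl
      have := hsw (b * 222222222 + l) (by omega) (by omega)
      rw [← ih (by omega), this, add_assoc]
  have hconst' : ∀ i, b * 222222222 ≤ i → i ≤ b * 222222222 + 222222222 →
      (side i ↔ side (b * 222222222)) := by
    intro i h1 h2
    have := hconst (i - b * 222222222) (by omega)
    rwa [show b * 222222222 + (i - b * 222222222) = i by omega] at this
  by_cases hs : side (b * 222222222)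
  · obtain ⟨S, hS, hS'⟩ := nest (fun i => (r i : ℤ)) b
      (fun i h1 h2 => by have := r_step i (by omega); omega)
      (fun i h1 h2 u1 u2 => by
        have t0 := (hconst' i h1 (by omega)).2 hs
        have := (A3 i (by omega) (iff_of_true u1 u2) (hsw i h1 (by omega)) (hsw (i + 1) (by omega)
          (by omega))).1 (iff_of_true u1 t0)
        have := r_lt i (by omega) _ this
        omega)
      (fun i h1 h2 u1 u2 => by
        have t0 := (hconst' i h1 (by omega)).2 hs
        have := (A3 i (by omega) (iff_of_false u1 u2) (hsw i h1 (by omega)) (hsw (i + 1) (by omega)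
          (by omega))).2 (fun h => u1 (h.2 t0))
        have := r_lt (i + 2) (by omega) _ this
        omega)
    have := cover (b * 222222222 + 222222222) (by omega) S (by
      intro i hi
      obtain ⟨h1, h2⟩ := hS' i hi
      refine ⟨by omega, ?_⟩
      rcases h2 with h2 | h2
      · exact Or.inl ⟨r_le _ (by omega) _ (by omega) (by omega), r_le _ (by omega) _ (by omega)
          (by omega)⟩
      · exact Or.inr ⟨r_le _ (by omega) _ (by omega) (by omega), r_le _ (by omega) _ (by omega)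
          (by omega)⟩)
    omega
  · obtain ⟨S, hS, hS'⟩ := nest (fun i => - (r i : ℤ)) b
      (fun i h1 h2 => by have := r_step i (by omega); omega)
      (fun i h1 h2 u1 u2 => by
        have t0 : ¬ side i := fun h => hs ((hconst' i h1 (by omega)).1 h)
        have := (A3 i (by omega) (iff_of_true u1 u2) (hsw i h1 (by omega)) (hsw (i + 1) (by omega)
          (by omega))).2 (fun h => t0 (h.1 u1))
        have := r_lt (i + 2) (by omega) _ this
        omega)
      (fun i h1 h2 u1 u2 => by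
        have t0 : ¬ side i := fun h => hs ((hconst' i h1 (by omega)).1 h)
        have := (A3 i (by omega) (iff_of_false u1 u2) (hsw i h1 (by omega)) (hsw (i + 1) (by omega)
          (by omega))).1 (iff_of_false u1 t0)
        have := r_lt i (by omega) _ this
        omega)
    have := cover (b * 222222222 + 222222222) (by omega) S (by
      intro i hi
      obtain ⟨h1, h2⟩ := hS' i hi
      refine ⟨by omega, ?_⟩
      rcases h2 with h2 | h2
      · exact Or.inr ⟨r_le _ (by omega) _ (by omega) (by omega), r_le _ (by omega) _ (by omega)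
          (by omega)⟩
      · exact Or.inl ⟨r_le _ (by omega) _ (by omega) (by omega), r_le _ (by omega) _ (by omega)
          (by omega)⟩)
    omega

end Pool.Agent.P.MP_c2502c_co
end

-- part Pool.Agent.P.MP_c2502c_co.Geo
section

namespace Pool.Agent.P.MP_c2502c_co

open Set

/-- An upward drawing with at most one crossing per edge, with edges as functions of the height. -/
structure FModel {V : Type} (E : V → V → Prop) where
  x : V → ℝ
  y : V → ℝ
  X : V → V → ℝ → ℝ
  lt : ∀ u v, E u v → y u < y v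
  cont : ∀ u v, E u v → ContinuousOn (X u v) (Icc (y u) (y v))
  lo : ∀ u v, E u v → X u v (y u) = x u
  hi : ∀ u v, E u v → X u v (y v) = x v
  inj : ∀ u v, x u = x v → y u = y v → u = v
  avoid : ∀ u v w, E u v → y u < y w → y w < y v → X u v (y w) ≠ x w
  one : ∀ u v a b a' b' h h', E u v → E a b → E a' b' → (a, b) ≠ (u, v) → (a', b') ≠ (u, v) →
    y u < h → h < y v → y a < h → h < y b → X u v h = X a b h →
    y u < h' → h' < y v → y a' < h' → h' < y b' → X u v h' = X a' b' h' → (a, b) = (a', b')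

namespace FModel

variable {V : Type} {E : V → V → Prop} (M : FModel E)

/-- reflection in the horizontal axis -/
def rev : FModel (fun u v => E v u) where
  x := M.x
  y := fun v => - M.y v
  X := fun v u h => M.X u v (-h)
  lt := fun u v h => neg_lt_neg (M.lt v u h)
  cont := fun u v h => by
    refine (M.cont v u h).comp continuous_neg.continuousOn ?_
    intro t ht
    exact ⟨by linarith [ht.2], by linarith [ht.1]⟩
  lo := fun u v h => by simpa using M.hi v u h
  hi := fun u v h => by simpa using M.lo v u h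
  inj := fun u v h1 h2 => M.inj u v h1 (by linarith)
  avoid := fun u v w h h1 h2 => by
    simpa using M.avoid v u w h (by linarith) (by linarith)
  one := fun u v a b a' b' h h' e1 e2 e3 n1 n2 p1 p2 p3 p4 p5 q1 q2 q3 q4 q5 => by
    have := M.one v u b a b' a' (-h) (-h') e1 e2 e3
      (fun hh => n1 (by simp only [Prod.mk.injEq] at hh ⊢; exact ⟨hh.2, hh.1⟩))
      (fun hh => n2 (by simp only [Prod.mk.injEq] at hh ⊢; exact ⟨hh.2, hh.1⟩))
      (by linarith) (by linarith) (by linarith) (by linarith) p5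
      (by linarith) (by linarith) (by linarith) (by linarith) q5
    simp only [Prod.mk.injEq] at this ⊢
    exact ⟨this.2, this.1⟩

def CrAt (u v a b : V) (h : ℝ) : Prop :=
  M.y u < h ∧ h < M.y v ∧ M.y a < h ∧ h < M.y b ∧ M.X u v h = M.X a b h

def Meet (e f : Sym2 V) : Prop :=
  ∃ u v a b h, e = s(u, v) ∧ f = s(a, b) ∧ E u v ∧ E a b ∧ M.CrAt u v a b h

lemma Meet.symm {M : FModel E} {e f : Sym2 V} (h : M.Meet e f) : M.Meet f e := by
  obtain ⟨u, v, a, b, h, h1, h2, h3, h4, h5, h6, h7, h8, h9⟩ := h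
  exact ⟨a, b, u, v, h, h2, h1, h4, h3, h7, h8, h5, h6, h9.symm⟩

lemma Meet.of_rev {e f : Sym2 V} (h : M.rev.Meet e f) : M.Meet e f := by
  obtain ⟨u, v, a, b, h, h1, h2, h3, h4, h5, h6, h7, h8, h9⟩ := h
  refine ⟨v, u, b, a, -h, by rw [h1, Sym2.eq_swap], by rw [h2, Sym2.eq_swap], h3, h4, ?_, ?_, ?_,
    ?_, h9⟩
  · have : h < - M.y v := h6
    linarith
  · have : - M.y u < h := h5
    linarith
  · have : h < - M.y b := h8
    linarith
  · have : - M.y a < h := h7
    linarith

lemma Meet.unique {M : FModel E} {e f f' : Sym2 V} (h : M.Meet e f) (h' : M.Meet e f')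
    (n : f ≠ e) (n' : f' ≠ e) : f = f' := by
  obtain ⟨u, v, a, b, h, rfl, rfl, h3, h4, h5, h6, h7, h8, h9⟩ := h
  obtain ⟨u', v', a', b', h', k1, rfl, k3, k4, k5, k6, k7, k8, k9⟩ := h'
  have huv : u = u' ∧ v = v' := by
    rcases Sym2.eq_iff.1 k1 with k | k
    · exact k
    · exfalso
      have := M.lt _ _ h3
      have := M.lt _ _ k3
      rw [← k.1, ← k.2] at this
      linarith
  obtain ⟨rfl, rfl⟩ := huv
  have := M.one u v a b a' b' h h' h3 h4 k4
    (fun hh => n (by simp only [Prod.mk.injEq] at hh; rw [hh.1, hh.2]))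
    (fun hh => n' (by simp only [Prod.mk.injEq] at hh; rw [hh.1, hh.2]))
    h5 h6 h7 h8 h9 k5 k6 k7 k8 k9
  simp only [Prod.mk.injEq] at this
  rw [this.1, this.2]

lemma ne_of_not_cr {u v a b : V} {h : ℝ} (e1 : E u v) (e2 : E a b)
    (n1 : u ≠ a) (n2 : u ≠ b) (n3 : v ≠ a) (n4 : v ≠ b)
    (h1 : M.y u ≤ h) (h2 : h ≤ M.y v) (h3 : M.y a ≤ h) (h4 : h ≤ M.y b)
    (hc : ¬ M.CrAt u v a b h) : M.X u v h ≠ M.X a b h := by
  intro heq
  rcases h1.eq_or_lt with k1 | k1
  · subst k1
    rw [M.lo u v e1] at heq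
    rcases h3.eq_or_lt with k3 | k3
    · rw [← k3, M.lo a b e2] at heq
      exact n1 (M.inj _ _ heq k3.symm)
    rcases h4.eq_or_lt with k4 | k4
    · rw [k4, M.hi a b e2] at heq
      exact n2 (M.inj _ _ heq k4)
    exact M.avoid a b u e2 k3 k4 heq.symm
  rcases h2.eq_or_lt with k2 | k2
  · subst k2
    rw [M.hi u v e1] at heq
    rcases h3.eq_or_lt with k3 | k3
    · rw [← k3, M.lo a b e2] at heq
      exact n3 (M.inj _ _ heq k3.symm)
    rcases h4.eq_or_lt with k4 | k4
    · rw [k4, M.hi a b e2] at heq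
      exact n4 (M.inj _ _ heq k4)
    exact M.avoid a b v e2 k3 k4 heq.symm
  rcases h3.eq_or_lt with k3 | k3
  · subst k3
    rw [M.lo a b e2] at heq
    exact M.avoid u v a e1 k1 k2 heq
  rcases h4.eq_or_lt with k4 | k4
  · subst k4
    rw [M.hi a b e2] at heq
    exact M.avoid u v b e1 k1 k2 heq
  exact hc ⟨k1, k2, k3, k4, heq⟩

lemma sign_eq {u v a b : V} {h1 h2 : ℝ} (e1 : E u v) (e2 : E a b)
    (n1 : u ≠ a) (n2 : u ≠ b) (n3 : v ≠ a) (n4 : v ≠ b) (h12 : h1 ≤ h2)
    (k1 : M.y u ≤ h1) (k2 : h2 ≤ M.y v) (k3 : M.y a ≤ h1) (k4 : h2 ≤ M.y b)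
    (hc : ∀ h, h1 ≤ h → ¬ M.CrAt u v a b h) :
    (M.X u v h1 < M.X a b h1 ↔ M.X u v h2 < M.X a b h2) := by
  have hne : ∀ h, h1 ≤ h → h ≤ h2 → M.X u v h - M.X a b h ≠ 0 := fun h p q =>
    sub_ne_zero.2 (M.ne_of_not_cr e1 e2 n1 n2 n3 n4 (by linarith) (by linarith) (by linarith)
      (by linarith) (hc h p))
  have hcont : ContinuousOn (fun h => M.X u v h - M.X a b h) (Icc h1 h2) :=
    ((M.cont u v e1).mono (Icc_subset_Icc k1 k2)).sub
      ((M.cont a b e2).mono (Icc_subset_Icc k3 k4))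
  constructor
  · intro hlt
    by_contra hge
    have : (0 : ℝ) ∈ Icc (M.X u v h1 - M.X a b h1) (M.X u v h2 - M.X a b h2) :=
      ⟨by linarith, by linarith [not_lt.1 hge]⟩
    obtain ⟨h, hh, h0⟩ := intermediate_value_Icc h12 hcont this
    exact hne h hh.1 hh.2 h0
  · intro hlt
    by_contra hge
    have : (0 : ℝ) ∈ Icc (M.X u v h2 - M.X a b h2) (M.X u v h1 - M.X a b h1) :=
      ⟨by linarith, by linarith [not_lt.1 hge]⟩
    obtain ⟨h, hh, h0⟩ := intermediate_value_Icc' h12 hcont this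
    exact hne h hh.1 hh.2 h0

/-- the point `(p, h)` lies between the curves `c → w` and `d → w` -/
def Ins (c d w : V) (p h : ℝ) : Prop :=
  h < M.y w ∧ ¬ (p < M.X c w h ↔ p < M.X d w h)

lemma ins_edge {c d w a b : V} {h1 h2 : ℝ} (ec : E c w) (ed : E d w) (hd : M.y d < M.y c)
    (e : E a b) (n1 : a ≠ c) (n2 : a ≠ w) (n3 : a ≠ d) (n4 : b ≠ c) (n5 : b ≠ w) (n6 : b ≠ d)
    (k0 : M.y c ≤ h1) (k1 : M.y a ≤ h1) (h12 : h1 ≤ h2) (k2 : h2 ≤ M.y b)
    (m1 : ∀ h, h1 ≤ h → ¬ M.CrAt a b c w h) (m2 : ∀ h, h1 ≤ h → ¬ M.CrAt a b d w h) :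
    M.Ins c d w (M.X a b h1) h1 ↔ M.Ins c d w (M.X a b h2) h2 := by
  unfold Ins
  by_cases hw : h2 < M.y w
  · rw [M.sign_eq e ec n1 n2 n4 n5 h12 k1 k2 k0 hw.le m1,
      M.sign_eq e ed n3 n2 n6 n5 h12 k1 k2 (by linarith) hw.le m2]
    have : h1 < M.y w := by linarith
    tauto
  · by_cases hw1 : h1 < M.y w
    · have hw' := not_lt.1 hw
      rw [M.sign_eq e ec n1 n2 n4 n5 hw1.le k1 (by linarith) k0 le_rfl m1,
        M.sign_eq e ed n3 n2 n6 n5 hw1.le k1 (by linarith) (by linarith) le_rfl m2,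
        M.hi c w ec, M.hi d w ed]
      tauto
    · tauto

lemma not_cr_of_not_meet {u v a b : V} (e1 : E u v) (e2 : E a b)
    (hm : ¬ M.Meet s(u, v) s(a, b)) (h1 : ℝ) : ∀ h, h1 ≤ h → ¬ M.CrAt u v a b h :=
  fun h _ hc => hm ⟨u, v, a, b, h, rfl, rfl, e1, e2, hc⟩

lemma ins_low {c d w : V} (ec : E c w) (p : ℝ) :
    M.Ins c d w p (M.y c) ↔ ¬ (p < M.x c ↔ p < M.X d w (M.y c)) := by
  unfold Ins
  rw [M.lo c w ec]
  have := M.lt c w ec
  tauto

/-- a transition edge -/
lemma ins_trans {c d w a b : V} (ec : E c w) (ed : E d w) (hd : M.y d < M.y c)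
    (e : E a b) (ha : M.y a < M.y c) (hb : M.y c < M.y b) (n3 : a ≠ d) (n5 : b ≠ w)
    (m1 : ¬ M.Meet s(a, b) s(c, w)) (m2 : ¬ M.Meet s(a, b) s(d, w)) :
    M.Ins c d w (M.X a b (M.y c)) (M.y c) ↔ M.Ins c d w (M.x b) (M.y b) := by
  have hw := M.lt c w ec
  rw [← M.hi a b e]
  exact M.ins_edge ec ed hd e (by rintro rfl; linarith) (by rintro rfl; linarith) n3
    (by rintro rfl; linarith) n5 (by rintro rfl; linarith) le_rfl ha.le hb.le le_rfl
    (M.not_cr_of_not_meet e ec m1 _) (M.not_cr_of_not_meet e ed m2 _)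

/-- an edge above the apex -/
lemma ins_run {c d w a b : V} (ec : E c w) (ed : E d w) (hd : M.y d < M.y c)
    (e : E a b) (ha : M.y c < M.y a) (n2 : a ≠ w) (n5 : b ≠ w)
    (m1 : ¬ M.Meet s(a, b) s(c, w)) (m2 : ¬ M.Meet s(a, b) s(d, w)) :
    M.Ins c d w (M.x a) (M.y a) ↔ M.Ins c d w (M.x b) (M.y b) := by
  have hab := M.lt a b e
  rw [← M.hi a b e, ← M.lo a b e]
  exact M.ins_edge ec ed hd e (by rintro rfl; linarith) n2 (by rintro rfl; linarith)
    (by rintro rfl; linarith) n5 (by rintro rfl; linarith) ha.le le_rfl hab.le le_rfl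
    (M.not_cr_of_not_meet e ec m1 _) (M.not_cr_of_not_meet e ed m2 _)

/-- an inward step along an increasing run of three vertices forces the two transition edges to
cross above the apex -/
lemma dir_up {c d d' u1 u2 u3 : V} (e1 : E c u1) (e2 : E c u2) (e12 : E u1 u2) (e23 : E u2 u3)
    (et : E d u1) (et' : E d' u3) (hd : M.y d < M.y c) (hd' : M.y d' < M.y c) (hdd : d' ≠ d)
    (H : M.X d' u3 (M.y c) = M.X d u1 (M.y c) ∨
      ¬ (M.X d' u3 (M.y c) < M.x c ↔ M.X d' u3 (M.y c) < M.X d u1 (M.y c))) :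
    ∃ h, M.y c ≤ h ∧ M.CrAt d' u3 d u1 h := by
  have l1 := M.lt _ _ e1
  have l2 := M.lt _ _ e12
  have l3 := M.lt _ _ e23
  rcases H with H | H
  · exact ⟨M.y c, le_rfl, hd', by linarith, hd, l1, H⟩
  by_contra hno
  push Not at hno
  have s1 := M.sign_eq et' et hdd (by rintro rfl; linarith) (by rintro rfl; linarith)
    (by rintro rfl; linarith) l1.le hd'.le (by linarith) hd.le le_rfl hno
  have mA : M.Meet s(d', u3) s(c, u1) := by
    by_contra hm
    have s2 := M.sign_eq et' e1 (by rintro rfl; linarith) (by rintro rfl; linarith)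
      (by rintro rfl; linarith) (by rintro rfl; linarith) l1.le hd'.le (by linarith) le_rfl le_rfl
      (M.not_cr_of_not_meet et' e1 hm _)
    rw [M.lo c u1 e1, M.hi c u1 e1] at s2
    rw [M.hi d u1 et] at s1
    exact H (s2.trans s1.symm)
  have nA : s(c, u1) ≠ s(d', u3) := by
    intro hh
    rcases Sym2.eq_iff.1 hh with k | k
    · rw [k.1] at hd'; linarith
    · rw [k.1] at l1; linarith
  have mB : ¬ M.Meet s(d', u3) s(c, u2) := by
    intro hm
    have := mA.unique hm nA (by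
      intro hh
      rcases Sym2.eq_iff.1 hh with k | k
      · rw [k.1] at hd'; linarith
      · rw [k.1] at l1; linarith)
    rcases Sym2.eq_iff.1 this with k | k
    · rw [k.2] at l2; linarith
    · rw [k.2] at l1; linarith
  have mC : ¬ M.Meet s(d', u3) s(u1, u2) := by
    intro hm
    have := mA.unique hm nA (by
      intro hh
      rcases Sym2.eq_iff.1 hh with k | k
      · rw [k.1] at l1; linarith
      · rw [k.1] at l2; linarith)
    rcases Sym2.eq_iff.1 this with k | k
    · rw [k.1] at l1; linarith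
    · rw [k.1] at l1; linarith
  have s2 := M.sign_eq et' e2 (h1 := M.y c) (h2 := M.y u2) (by rintro rfl; linarith)
    (by rintro rfl; linarith) (by rintro rfl; linarith) (by rintro rfl; linarith) (by linarith)
    hd'.le l3.le le_rfl le_rfl (M.not_cr_of_not_meet et' e2 mB _)
  have s3 := M.sign_eq et' e12 (h1 := M.y u1) (h2 := M.y u2) (by rintro rfl; linarith)
    (by rintro rfl; linarith) (by rintro rfl; linarith) (by rintro rfl; linarith) l2.le
    (by linarith) l3.le le_rfl le_rfl (M.not_cr_of_not_meet et' e12 mC _)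
  rw [M.lo c u2 e2, M.hi c u2 e2] at s2
  rw [M.lo u1 u2 e12, M.hi u1 u2 e12] at s3
  rw [M.hi d u1 et] at s1
  exact H (s2.trans (s3.symm.trans s1.symm))

end FModel

end Pool.Agent.P.MP_c2502c_co
end

-- part Pool.Agent.P.MP_c2502c_co.Half
section

namespace Pool.Agent.P.MP_c2502c_co

open Set

noncomputable def keyOf (x0 : ℝ) (α : ℕ → ℝ) (j : ℕ) : ℕ ×ₗ (ℝ ×ₗ ℕ) :=
  toLex (if x0 < α j then 0 else 1, toLex (α j, j))

lemma key_inj {x0 : ℝ} {α : ℕ → ℝ} {i j : ℕ} (h : keyOf x0 α i = keyOf x0 α j) : i = j := by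
  unfold keyOf at h
  have h1 := (Prod.mk.inj (toLex.injective h)).2
  exact (Prod.mk.inj (toLex.injective h1)).2

lemma key_side {x0 : ℝ} {α : ℕ → ℝ} {i j : ℕ} (hi : x0 < α i) (hj : ¬ x0 < α j) :
    keyOf x0 α i < keyOf x0 α j := by
  unfold keyOf
  rw [Prod.Lex.toLex_lt_toLex]
  simp [hi, hj]

lemma key_same {x0 : ℝ} {α : ℕ → ℝ} {i j : ℕ} (hs : x0 < α i ↔ x0 < α j) (h : α i < α j) :
    keyOf x0 α i < keyOf x0 α j := by
  unfold keyOf
  rw [Prod.Lex.toLex_lt_toLex, Prod.Lex.toLex_lt_toLex]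
  right
  simp [hs, h]

lemma key_lt {x0 : ℝ} {α : ℕ → ℝ} {i s : ℕ} (hi : α i ≠ x0) (hs : α s ≠ x0) (hne : α i ≠ α s) :
    keyOf x0 α i < keyOf x0 α s ↔ ((α i < x0 ↔ α i < α s) ↔ ¬ x0 < α s) := by
  have asym : ∀ a b : ℕ, keyOf x0 α a < keyOf x0 α b → ¬ keyOf x0 α b < keyOf x0 α a :=
    fun a b h => lt_asymm h
  rcases hi.lt_or_gt with h1 | h1 <;> rcases hs.lt_or_gt with h2 | h2 <;>
    rcases hne.lt_or_gt with h3 | h3
  · exact iff_of_true (key_same (iff_of_false h1.not_gt h2.not_gt) h3) (by simp [h1, h3, h2.le])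
  · exact iff_of_false (asym _ _ (key_same (iff_of_false h2.not_gt h1.not_gt) h3))
      (by simp [h1, h3.le, h2.le])
  · exact iff_of_false (asym _ _ (key_side h2 h1.not_gt)) (by simp [h1, h3, h2])
  · linarith
  · linarith
  · exact iff_of_true (key_side h1 h2.not_gt) (by simp [h1.not_gt, h3.not_gt, h2.le])
  · exact iff_of_true (key_same (iff_of_true h1 h2) h3) (by simp [h1.not_gt, h3, h2])
  · exact iff_of_false (asym _ _ (key_same (iff_of_true h2 h1) h3))
      (by simp [h1.not_gt, h3.not_gt, h2])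

/-- data of the transition edges around the apex `c` -/
structure Trans {V : Type} {E : V → V → Prop} (M : FModel E) (c : V) (N : ℕ) (bot top : ℕ → V)
    (x0 : ℝ) (α : ℕ → ℝ) : Prop where
  hx : x0 = M.x c
  hα : ∀ s ≤ N, α s = M.X (bot s) (top s) (M.y c)
  eT : ∀ s ≤ N, E (bot s) (top s)
  eB : ∀ s ≤ N, E (bot s) c
  eC : ∀ s ≤ N, E c (top s)
  ib : ∀ s ≤ N, ∀ s' ≤ N, bot s = bot s' → s = s'
  it : ∀ s ≤ N, ∀ s' ≤ N, top s = top s' → s = s'

namespace Trans

variable {V : Type} {E : V → V → Prop} {M : FModel E} {c : V} {N : ℕ} {bot top : ℕ → V}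
  {x0 : ℝ} {α : ℕ → ℝ}

lemma rev (T : Trans M c N bot top x0 α) : Trans M.rev c N top bot x0 α where
  hx := T.hx
  hα := fun s hs => by
    rw [T.hα s hs]
    show _ = M.X (bot s) (top s) (- - M.y c)
    rw [neg_neg]
  eT := T.eT
  eB := T.eC
  eC := T.eB
  ib := T.it
  it := T.ib

lemma ne_x0 (T : Trans M c N bot top x0 α) {s : ℕ} (hs : s ≤ N) : α s ≠ x0 := by
  rw [T.hα s hs, T.hx]
  exact M.avoid _ _ c (T.eT s hs) (M.lt _ _ (T.eB s hs)) (M.lt _ _ (T.eC s hs))

lemma meet_of_eq (T : Trans M c N bot top x0 α) {i s : ℕ} (hi : i ≤ N) (hs : s ≤ N)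
    (h : α i = α s) : M.Meet s(bot i, top i) s(bot s, top s) :=
  ⟨_, _, _, _, M.y c, rfl, rfl, T.eT i hi, T.eT s hs, M.lt _ _ (T.eB i hi), M.lt _ _ (T.eC i hi),
    M.lt _ _ (T.eB s hs), M.lt _ _ (T.eC s hs), by rw [← T.hα i hi, ← T.hα s hs, h]⟩

lemma edge_inj (T : Trans M c N bot top x0 α) {i s : ℕ} (hi : i ≤ N) (hs : s ≤ N)
    (h : s(bot i, top i) = s(bot s, top s)) : i = s := by
  rcases Sym2.eq_iff.1 h with k | k
  · exact T.ib i hi s hs k.1
  · have h1 := M.lt _ _ (T.eB i hi)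
    have h2 := M.lt _ _ (T.eC s hs)
    rw [k.1] at h1
    linarith

lemma spoke_ne (T : Trans M c N bot top x0 α) {i : ℕ} (hi : i ≤ N) (w : V) :
    s(c, w) ≠ s(bot i, top i) := by
  intro h
  have h1 := M.lt _ _ (T.eB i hi)
  have h2 := M.lt _ _ (T.eC i hi)
  rcases Sym2.eq_iff.1 h with k | k
  · rw [← k.1] at h1; linarith
  · rw [← k.1] at h2; linarith

/-- if the two inside-statuses at the apex height agree then `s` is not between -/
lemma not_btw (T : Trans M c N bot top x0 α) {i i' s : ℕ} (hi : i ≤ N) (hi' : i' ≤ N) (hs : s ≤ N)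
    (n1 : α i ≠ α s) (n2 : α i' ≠ α s)
    (h : M.Ins c (bot s) (top s) (M.X (bot i) (top i) (M.y c)) (M.y c) ↔
      M.Ins c (bot s) (top s) (M.X (bot i') (top i') (M.y c)) (M.y c)) :
    ¬ ((keyOf x0 α i < keyOf x0 α s ∧ keyOf x0 α s < keyOf x0 α i') ∨
      (keyOf x0 α i' < keyOf x0 α s ∧ keyOf x0 α s < keyOf x0 α i)) := by
  rw [M.ins_low (T.eC s hs), M.ins_low (T.eC s hs), ← T.hα i hi, ← T.hα i' hi', ← T.hα s hs,
    ← T.hx] at h
  have k1 := key_lt (T.ne_x0 hi) (T.ne_x0 hs) n1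
  have k2 := key_lt (T.ne_x0 hi') (T.ne_x0 hs) n2
  rintro (⟨a, b⟩ | ⟨a, b⟩)
  · have := k1.1 a
    have hb : ¬ keyOf x0 α i' < keyOf x0 α s := lt_asymm b
    rw [k2] at hb
    tauto
  · have := k2.1 a
    have hb : ¬ keyOf x0 α i < keyOf x0 α s := lt_asymm b
    rw [k1] at hb
    tauto

lemma pass (T : Trans M c N bot top x0 α) {i i' s : ℕ} {m : V} (hi : i ≤ N) (hi' : i' ≤ N)
    (hs : s ≤ N) (e1 : E (top i) m) (e2 : E m (top i')) (hm : m ≠ top s)
    (hb : (keyOf x0 α i < keyOf x0 α s ∧ keyOf x0 α s < keyOf x0 α i') ∨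
      (keyOf x0 α i' < keyOf x0 α s ∧ keyOf x0 α s < keyOf x0 α i)) :
    ∃ g, (g = s(bot i, top i) ∨ g = s(top i, m) ∨ g = s(m, top i') ∨ g = s(bot i', top i')) ∧
      (M.Meet g s(c, top s) ∨ M.Meet g s(bot s, top s)) := by
  by_contra hno
  push Not at hno
  have hsi : i ≠ s := by
    rintro rfl
    rcases hb with hb | hb
    · exact lt_irrefl _ hb.1
    · exact lt_irrefl _ hb.2
  have hsi' : i' ≠ s := by
    rintro rfl
    rcases hb with hb | hb
    · exact lt_irrefl _ hb.2
    · exact lt_irrefl _ hb.1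
  obtain ⟨a1, a2⟩ := hno _ (Or.inl rfl)
  obtain ⟨b1, b2⟩ := hno _ (Or.inr (Or.inl rfl))
  obtain ⟨c1, c2⟩ := hno _ (Or.inr (Or.inr (Or.inl rfl)))
  obtain ⟨d1, d2⟩ := hno _ (Or.inr (Or.inr (Or.inr rfl)))
  have ls := M.lt _ _ (T.eB s hs)
  have li := M.lt _ _ (T.eC i hi)
  have lm := M.lt _ _ e1
  have p1 := M.ins_trans (T.eC s hs) (T.eT s hs) ls (T.eT i hi) (M.lt _ _ (T.eB i hi)) li
    (fun h => hsi (T.ib _ hi _ hs h)) (fun h => hsi (T.it _ hi _ hs h)) a1 a2
  have p2 := M.ins_run (T.eC s hs) (T.eT s hs) ls e1 li (fun h => hsi (T.it _ hi _ hs h)) hm b1 b2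
  have p3 := M.ins_run (T.eC s hs) (T.eT s hs) ls e2 (by linarith) hm
    (fun h => hsi' (T.it _ hi' _ hs h)) c1 c2
  have p4 := M.ins_trans (T.eC s hs) (T.eT s hs) ls (T.eT i' hi') (M.lt _ _ (T.eB i' hi'))
    (M.lt _ _ (T.eC i' hi')) (fun h => hsi' (T.ib _ hi' _ hs h))
    (fun h => hsi' (T.it _ hi' _ hs h)) d1 d2
  exact T.not_btw hi hi' hs (fun h => a2 (T.meet_of_eq hi hs h))
    (fun h => d2 (T.meet_of_eq hi' hs h)) (p1.trans (p2.trans (p3.trans p4.symm))) hb

lemma step (T : Trans M c N bot top x0 α) {i i' : ℕ} {m : V} (hi : i ≤ N) (hi' : i' ≤ N)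
    (hne : i' ≠ i) (e0 : E c m) (e1 : E (top i) m) (e2 : E m (top i'))
    (hsd : x0 < α i ↔ x0 < α i') :
    ((x0 < α i → keyOf x0 α i < keyOf x0 α i') ∧ (¬ x0 < α i → keyOf x0 α i' < keyOf x0 α i)) ∨
    (M.Meet s(bot i, top i) s(bot i', top i') ∧ ∀ s ≤ N,
      ¬ ((keyOf x0 α i < keyOf x0 α s ∧ keyOf x0 α s < keyOf x0 α i') ∨
        (keyOf x0 α i' < keyOf x0 α s ∧ keyOf x0 α s < keyOf x0 α i))) := by
  by_cases H : α i' = α i ∨ ¬ (α i' < x0 ↔ α i' < α i)
  · right
    have H' := H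
    rw [T.hα i hi, T.hα i' hi', T.hx] at H'
    obtain ⟨h0, k0, k⟩ := M.dir_up (T.eC i hi) e0 e1 e2 (T.eT i hi) (T.eT i' hi')
      (M.lt _ _ (T.eB i hi)) (M.lt _ _ (T.eB i' hi')) (fun h => hne (T.ib _ hi' _ hi h)) H'
    have mm : M.Meet s(bot i', top i') s(bot i, top i) :=
      ⟨_, _, _, _, h0, rfl, rfl, T.eT i' hi', T.eT i hi, k⟩
    refine ⟨mm.symm, fun s hs hb => ?_⟩
    have hsi : i ≠ s := by
      rintro rfl
      rcases hb with hb | hb
      · exact lt_irrefl _ hb.1
      · exact lt_irrefl _ hb.2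
    have hsi' : i' ≠ s := by
      rintro rfl
      rcases hb with hb | hb
      · exact lt_irrefl _ hb.2
      · exact lt_irrefl _ hb.1
    have q1 : s(bot i, top i) ≠ s(bot i', top i') := fun h => hne (T.edge_inj hi hi' h).symm
    have a1 : ¬ M.Meet s(bot i, top i) s(c, top s) := fun h =>
      T.spoke_ne hi' _ (h.unique mm.symm (T.spoke_ne hi _) q1.symm)
    have a2 : ¬ M.Meet s(bot i, top i) s(bot s, top s) := fun h =>
      hsi' (T.edge_inj hs hi' (h.unique mm.symm (fun h => hsi (T.edge_inj hs hi h).symm)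
        q1.symm)).symm
    have d1 : ¬ M.Meet s(bot i', top i') s(c, top s) := fun h =>
      T.spoke_ne hi _ (h.unique mm (T.spoke_ne hi' _) q1)
    have d2 : ¬ M.Meet s(bot i', top i') s(bot s, top s) := fun h =>
      hsi (T.edge_inj hs hi (h.unique mm (fun h => hsi' (T.edge_inj hs hi' h).symm) q1)).symm
    have ls := M.lt _ _ (T.eB s hs)
    have lw := M.lt _ _ (T.eC s hs)
    have lb := M.lt _ _ (T.eB i hi)
    have lb' := M.lt _ _ (T.eB i' hi')
    have lt1 := M.lt _ _ (T.eC i hi)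
    have lt2 := M.lt _ _ (T.eC i' hi')
    have p1 := M.ins_edge (h1 := M.y c) (h2 := h0) (T.eC s hs) (T.eT s hs) ls (T.eT i hi)
      (fun h => by rw [h] at lb; linarith) (fun h => by rw [h] at lb; linarith)
      (fun h => hsi (T.ib _ hi _ hs h)) (fun h => by rw [h] at lt1; linarith)
      (fun h => hsi (T.it _ hi _ hs h)) (fun h => by rw [h] at lt1; linarith)
      le_rfl lb.le k0 k.2.2.2.1.le
      (M.not_cr_of_not_meet (T.eT i hi) (T.eC s hs) a1 _)
      (M.not_cr_of_not_meet (T.eT i hi) (T.eT s hs) a2 _)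
    have p2 := M.ins_edge (h1 := M.y c) (h2 := h0) (T.eC s hs) (T.eT s hs) ls (T.eT i' hi')
      (fun h => by rw [h] at lb'; linarith) (fun h => by rw [h] at lb'; linarith)
      (fun h => hsi' (T.ib _ hi' _ hs h)) (fun h => by rw [h] at lt2; linarith)
      (fun h => hsi' (T.it _ hi' _ hs h)) (fun h => by rw [h] at lt2; linarith)
      le_rfl lb'.le k0 k.2.1.le
      (M.not_cr_of_not_meet (T.eT i' hi') (T.eC s hs) d1 _)
      (M.not_cr_of_not_meet (T.eT i' hi') (T.eT s hs) d2 _)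
    rw [k.2.2.2.2] at p2
    exact T.not_btw hi hi' hs (fun h => a2 (T.meet_of_eq hi hs h))
      (fun h => d2 (T.meet_of_eq hi' hs h)) (p1.trans p2.symm) hb
  · left
    rw [not_or, not_not] at H
    obtain ⟨H1, H2⟩ := H
    constructor
    · intro h
      refine key_same hsd ?_
      have h' := hsd.1 h
      have : ¬ α i' < α i := fun hh => (H2.2 hh).not_gt h'
      exact lt_of_le_of_ne (not_lt.1 this) (Ne.symm H1)
    · intro h
      refine key_same hsd.symm (H2.1 ?_)
      have h' : ¬ x0 < α i' := fun hh => h (hsd.2 hh)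
      exact lt_of_le_of_ne (not_lt.1 h') (T.ne_x0 hi')

end Trans

end Pool.Agent.P.MP_c2502c_co
end

-- part Pool.Agent.P.MP_c2502c_co.Fan
section

namespace Pool.Agent.P.MP_c2502c_co

open Set

/-- direction of the path edge between `p k` and `p (k+1)` -/
def fwd (k : ℕ) : Prop :=
  (k % 3 = 2 ∧ (k / 3) % 2 = 1) ∨ (k % 3 ≠ 2 ∧ (strandUp (k / 3 - 1) ↔ (k / 3) % 2 = 0))

structure FanData {V : Type} (E : V → V → Prop) (c : V) (p : ℕ → V) (N : ℕ) : Prop where
  hp : ∀ i < 3 * N + 6, ∀ j < 3 * N + 6, p i = p j → i = j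
  hc : ∀ i < 3 * N + 6, p i ≠ c
  hU : ∀ k < 3 * N + 6, (k / 3) % 2 = 0 → E c (p k)
  hD : ∀ k < 3 * N + 6, (k / 3) % 2 = 1 → E (p k) c
  hF : ∀ k, k + 1 < 3 * N + 6 → fwd k → E (p k) (p (k + 1))
  hB : ∀ k, k + 1 < 3 * N + 6 → ¬ fwd k → E (p (k + 1)) (p k)

def botI (s : ℕ) : ℕ := if s % 2 = 0 then 3 * s + 3 else 3 * s + 2
def topI (s : ℕ) : ℕ := if s % 2 = 0 then 3 * s + 2 else 3 * s + 3

lemma botI_even {s : ℕ} (h : s % 2 = 0) : botI s = 3 * s + 3 := by simp [botI, h]
lemma botI_odd {s : ℕ} (h : s % 2 = 1) : botI s = 3 * s + 2 := by simp [botI, h]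
lemma topI_even {s : ℕ} (h : s % 2 = 0) : topI s = 3 * s + 2 := by simp [topI, h]
lemma topI_odd {s : ℕ} (h : s % 2 = 1) : topI s = 3 * s + 3 := by simp [topI, h]

namespace FanData

variable {V : Type} {E : V → V → Prop} {c : V} {p : ℕ → V} {N : ℕ}

lemma trans (F : FanData E c p N) (M : FModel E) :
    Trans M c N (fun s => p (botI s)) (fun s => p (topI s)) (M.x c)
      (fun s => M.X (p (botI s)) (p (topI s)) (M.y c)) where
  hx := rfl
  hα := fun _ _ => rfl
  eT := fun s hs => by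
    rcases Nat.mod_two_eq_zero_or_one s with h | h
    · rw [botI_even h, topI_even h]
      exact F.hB (3 * s + 2) (by omega) (by unfold fwd; omega)
    · rw [botI_odd h, topI_odd h]
      exact F.hF (3 * s + 2) (by omega) (Or.inl (by omega))
  eB := fun s hs => by
    rcases Nat.mod_two_eq_zero_or_one s with h | h
    · rw [botI_even h]; exact F.hD _ (by omega) (by omega)
    · rw [botI_odd h]; exact F.hD _ (by omega) (by omega)
  eC := fun s hs => by
    rcases Nat.mod_two_eq_zero_or_one s with h | h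
    · rw [topI_even h]; exact F.hU _ (by omega) (by omega)
    · rw [topI_odd h]; exact F.hU _ (by omega) (by omega)
  ib := fun s hs s' hs' h => by
    have := F.hp _ (by unfold botI; split_ifs <;> omega) _ (by unfold botI; split_ifs <;> omega) h
    unfold botI at this
    split_ifs at this <;> omega
  it := fun s hs s' hs' h => by
    have := F.hp _ (by unfold topI; split_ifs <;> omega) _ (by unfold topI; split_ifs <;> omega) h
    unfold topI at this
    split_ifs at this <;> omega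

lemma tE (p : ℕ → V) (s : ℕ) :
    s(p (botI s), p (topI s)) = s(p (3 * s + 2), p (3 * s + 2 + 1)) := by
  rcases Nat.mod_two_eq_zero_or_one s with h | h
  · rw [botI_even h, topI_even h, Sym2.eq_swap]
  · rw [botI_odd h, topI_odd h]

lemma tE' (p : ℕ → V) (s : ℕ) :
    s(p (topI s), p (botI s)) = s(p (3 * s + 2), p (3 * s + 2 + 1)) := by
  rw [Sym2.eq_swap, tE]

lemma fwd_run {i : ℕ} : (fwd (3 * i + 3) ↔ (strandUp i ↔ i % 2 = 1)) ∧
    (fwd (3 * i + 4) ↔ (strandUp i ↔ i % 2 = 1)) := by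
  unfold fwd
  have h1 : (3 * i + 3) / 3 - 1 = i := by omega
  have h2 : (3 * i + 4) / 3 - 1 = i := by omega
  have h3 : (3 * i + 3) / 3 % 2 = 0 ↔ i % 2 = 1 := by omega
  have h4 : (3 * i + 4) / 3 % 2 = 0 ↔ i % 2 = 1 := by omega
  have h5 : (3 * i + 3) % 3 ≠ 2 := by omega
  have h6 : (3 * i + 4) % 3 ≠ 2 := by omega
  rw [h1, h2, h3, h4]
  exact ⟨⟨fun h => h.elim (fun k => absurd k.1 h5) (fun k => k.2), fun h => Or.inr ⟨h5, h⟩⟩,
    ⟨fun h => h.elim (fun k => absurd k.1 h6) (fun k => k.2), fun h => Or.inr ⟨h6, h⟩⟩⟩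

/-- the edges of the run between the transitions `i` and `i+1` -/
lemma run (F : FanData E c p N) {i : ℕ} (hi : i < N) :
    ((strandUp i ↔ i % 2 = 1) →
      E (p (3 * i + 3)) (p (3 * i + 4)) ∧ E (p (3 * i + 4)) (p (3 * i + 5))) ∧
    (¬ (strandUp i ↔ i % 2 = 1) →
      E (p (3 * i + 5)) (p (3 * i + 4)) ∧ E (p (3 * i + 4)) (p (3 * i + 3))) :=
  ⟨fun h => ⟨F.hF _ (by omega) (fwd_run.1.2 h), F.hF _ (by omega) (fwd_run.2.2 h)⟩,
   fun h => ⟨F.hB (3 * i + 4) (by omega) (fun k => h (fwd_run.2.1 k)),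
     F.hB (3 * i + 3) (by omega) (fun k => h (fwd_run.1.1 k))⟩⟩

lemma pass (F : FanData E c p N) (M : FModel E) {i s : ℕ} (hi : i < N) (hs : s ≤ N)
    (hb : Btw (keyOf (M.x c) (fun s => M.X (p (botI s)) (p (topI s)) (M.y c))) i s) :
    ∃ k, 3 * i + 2 ≤ k ∧ k ≤ 3 * i + 5 ∧ ∃ e,
      (e = s(p (3 * s + 2), p (3 * s + 2 + 1)) ∨ e = s(c, p (3 * s + 2)) ∨
        e = s(c, p (3 * s + 3))) ∧ M.Meet s(p k, p (k + 1)) e := by
  have T := F.trans M
  have fin : ∀ g : Sym2 V, (∃ k, 3 * i + 2 ≤ k ∧ k ≤ 3 * i + 5 ∧ g = s(p k, p (k + 1))) →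
      ∀ w, (w = p (topI s) ∨ w = p (botI s)) →
      (M.Meet g s(c, w) ∨ M.Meet g s(p (3 * s + 2), p (3 * s + 2 + 1))) →
      ∃ k, 3 * i + 2 ≤ k ∧ k ≤ 3 * i + 5 ∧ ∃ e,
      (e = s(p (3 * s + 2), p (3 * s + 2 + 1)) ∨ e = s(c, p (3 * s + 2)) ∨
        e = s(c, p (3 * s + 3))) ∧ M.Meet s(p k, p (k + 1)) e := by
    rintro g ⟨k, k1, k2, rfl⟩ w hw hm
    refine ⟨k, k1, k2, ?_⟩
    rcases hm with hm | hm
    · refine ⟨_, Or.inr ?_, hm⟩
      rcases Nat.mod_two_eq_zero_or_one s with h | h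
      · rw [botI_even h, topI_even h] at hw
        rcases hw with rfl | rfl <;> simp
      · rw [botI_odd h, topI_odd h] at hw
        rcases hw with rfl | rfl <;> simp
    · exact ⟨_, Or.inl rfl, hm⟩
  have g0 : ∃ k, 3 * i + 2 ≤ k ∧ k ≤ 3 * i + 5 ∧
      s(p (3 * i + 2), p (3 * i + 2 + 1)) = s(p k, p (k + 1)) := ⟨_, le_rfl, by omega, rfl⟩
  have g1 : ∃ k, 3 * i + 2 ≤ k ∧ k ≤ 3 * i + 5 ∧
      s(p (3 * i + 3), p (3 * i + 4)) = s(p k, p (k + 1)) := ⟨3 * i + 3, by omega, by omega, rfl⟩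
  have g2 : ∃ k, 3 * i + 2 ≤ k ∧ k ≤ 3 * i + 5 ∧
      s(p (3 * i + 4), p (3 * i + 5)) = s(p k, p (k + 1)) := ⟨3 * i + 4, by omega, by omega, rfl⟩
  have g3 : ∃ k, 3 * i + 2 ≤ k ∧ k ≤ 3 * i + 5 ∧
      s(p (3 * (i + 1) + 2), p (3 * (i + 1) + 2 + 1)) = s(p k, p (k + 1)) :=
    ⟨3 * (i + 1) + 2, by omega, by omega, rfl⟩
  have g1' := g1
  have g2' := g2
  rw [Sym2.eq_swap] at g1' g2'
  have r := F.run hi
  have hb' : (keyOf (M.x c) (fun s => M.X (p (botI s)) (p (topI s)) (M.y c)) (i + 1) <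
      keyOf (M.x c) (fun s => M.X (p (botI s)) (p (topI s)) (M.y c)) s ∧
      keyOf (M.x c) (fun s => M.X (p (botI s)) (p (topI s)) (M.y c)) s <
      keyOf (M.x c) (fun s => M.X (p (botI s)) (p (topI s)) (M.y c)) i) ∨
      (keyOf (M.x c) (fun s => M.X (p (botI s)) (p (topI s)) (M.y c)) i <
      keyOf (M.x c) (fun s => M.X (p (botI s)) (p (topI s)) (M.y c)) s ∧
      keyOf (M.x c) (fun s => M.X (p (botI s)) (p (topI s)) (M.y c)) s <
      keyOf (M.x c) (fun s => M.X (p (botI s)) (p (topI s)) (M.y c)) (i + 1)) := Or.symm hb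
  have mt : p (3 * i + 4) ≠ p (topI s) := fun h => by
    have := F.hp _ (by omega) _ (by unfold topI; split_ifs <;> omega) h
    unfold topI at this
    split_ifs at this <;> omega
  have mb : p (3 * i + 4) ≠ p (botI s) := fun h => by
    have := F.hp _ (by omega) _ (by unfold botI; split_ifs <;> omega) h
    unfold botI at this
    split_ifs at this <;> omega
  rcases Nat.mod_two_eq_zero_or_one i with h | h
  · have b1 : botI i = 3 * i + 3 := botI_even h
    have b2 : botI (i + 1) = 3 * i + 5 := by rw [botI_odd (by omega)]; omega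
    by_cases u : (strandUp i ↔ i % 2 = 1)
    · obtain ⟨r1, r2⟩ := r.1 u
      obtain ⟨g, hg, hm⟩ := T.rev.pass (i := i + 1) (i' := i) (m := p (3 * i + 4)) (by omega)
        hi.le hs (by simp only [b2]; exact r2) (by simp only [b1]; exact r1) mb hb'
      simp only [tE'] at hg hm
      simp only [b1, b2] at hg
      refine fin g ?_ _ (Or.inr rfl) (hm.imp (FModel.Meet.of_rev M) (FModel.Meet.of_rev M))
      rcases hg with rfl | rfl | rfl | rfl <;> assumption
    · obtain ⟨r1, r2⟩ := r.2 u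
      obtain ⟨g, hg, hm⟩ := T.rev.pass (i := i) (i' := i + 1) (m := p (3 * i + 4)) hi.le
        (by omega) hs (by simp only [b1]; exact r2) (by simp only [b2]; exact r1) mb hb
      simp only [tE'] at hg hm
      simp only [b1, b2] at hg
      refine fin g ?_ _ (Or.inr rfl) (hm.imp (FModel.Meet.of_rev M) (FModel.Meet.of_rev M))
      rcases hg with rfl | rfl | rfl | rfl <;> assumption
  · have b1 : topI i = 3 * i + 3 := topI_odd h
    have b2 : topI (i + 1) = 3 * i + 5 := by rw [topI_even (by omega)]; omega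
    by_cases u : (strandUp i ↔ i % 2 = 1)
    · obtain ⟨r1, r2⟩ := r.1 u
      obtain ⟨g, hg, hm⟩ := T.pass (i := i) (i' := i + 1) (m := p (3 * i + 4)) hi.le
        (by omega) hs (by simp only [b1]; exact r1) (by simp only [b2]; exact r2) mt hb
      simp only [tE] at hg hm
      simp only [b1, b2] at hg
      refine fin g ?_ _ (Or.inl rfl) hm
      rcases hg with rfl | rfl | rfl | rfl <;> assumption
    · obtain ⟨r1, r2⟩ := r.2 u
      obtain ⟨g, hg, hm⟩ := T.pass (i := i + 1) (i' := i) (m := p (3 * i + 4)) (by omega)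
        hi.le hs (by simp only [b2]; exact r1) (by simp only [b1]; exact r2) mt hb'
      simp only [tE] at hg hm
      simp only [b1, b2] at hg
      refine fin g ?_ _ (Or.inl rfl) hm
      rcases hg with rfl | rfl | rfl | rfl <;> assumption

lemma step (F : FanData E c p N) (M : FModel E) {i : ℕ} (hi : i < N) (α : ℕ → ℝ)
    (hα : α = fun s => M.X (p (botI s)) (p (topI s)) (M.y c))
    (hsd : M.x c < α i ↔ M.x c < α (i + 1)) :
    (((strandUp i ↔ M.x c < α i) → keyOf (M.x c) α i < keyOf (M.x c) α (i + 1)) ∧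
      (¬ (strandUp i ↔ M.x c < α i) → keyOf (M.x c) α (i + 1) < keyOf (M.x c) α i)) ∨
    (M.Meet s(p (3 * i + 2), p (3 * i + 2 + 1)) s(p (3 * (i + 1) + 2), p (3 * (i + 1) + 2 + 1)) ∧
      ∀ s ≤ N, ¬ Btw (keyOf (M.x c) α) i s) := by
  have T := F.trans M
  rw [← hα] at T
  have r := F.run hi
  rcases Nat.mod_two_eq_zero_or_one i with h | h
  · have b1 : botI i = 3 * i + 3 := botI_even h
    have b2 : botI (i + 1) = 3 * i + 5 := by rw [botI_odd (by omega)]; omega
    have e0 : E (p (3 * i + 4)) c := F.hD _ (by omega) (by omega)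
    by_cases u : (strandUp i ↔ i % 2 = 1)
    · obtain ⟨r1, r2⟩ := r.1 u
      have u' : ¬ strandUp i := fun k => by have := u.1 k; omega
      rcases T.rev.step (i := i + 1) (i' := i) (m := p (3 * i + 4)) (by omega)
        hi.le (by omega) e0 (by simp only [b2]; exact r2) (by simp only [b1]; exact r1) hsd.symm
        with k | k
      · left; tauto
      · right
        simp only [tE'] at k
        exact ⟨(FModel.Meet.of_rev M k.1).symm, fun s hs hb => k.2 s hs (Or.symm hb)⟩
    · obtain ⟨r1, r2⟩ := r.2 u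
      have u' : strandUp i := by
        by_contra k
        exact u (iff_of_false k (by omega))
      rcases T.rev.step (i := i) (i' := i + 1) (m := p (3 * i + 4)) hi.le (by omega)
        (by omega) e0 (by simp only [b1]; exact r2) (by simp only [b2]; exact r1) hsd
        with k | k
      · left; tauto
      · right
        simp only [tE'] at k
        exact ⟨FModel.Meet.of_rev M k.1, fun s hs hb => k.2 s hs hb⟩
  · have b1 : topI i = 3 * i + 3 := topI_odd h
    have b2 : topI (i + 1) = 3 * i + 5 := by rw [topI_even (by omega)]; omega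
    have e0 : E c (p (3 * i + 4)) := F.hU _ (by omega) (by omega)
    by_cases u : (strandUp i ↔ i % 2 = 1)
    · obtain ⟨r1, r2⟩ := r.1 u
      have u' : strandUp i := u.2 h
      rcases T.step (i := i) (i' := i + 1) (m := p (3 * i + 4)) hi.le (by omega)
        (by omega) e0 (by simp only [b1]; exact r1) (by simp only [b2]; exact r2) hsd
        with k | k
      · left; tauto
      · right
        simp only [tE] at k
        exact ⟨k.1, fun s hs hb => k.2 s hs hb⟩
    · obtain ⟨r1, r2⟩ := r.2 u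
      have u' : ¬ strandUp i := fun k => u (iff_of_true k h)
      rcases T.step (i := i + 1) (i' := i) (m := p (3 * i + 4)) (by omega)
        hi.le (by omega) e0 (by simp only [b2]; exact r1) (by simp only [b1]; exact r2) hsd.symm
        with k | k
      · left; tauto
      · right
        simp only [tE] at k
        exact ⟨k.1.symm, fun s hs hb => k.2 s hs (Or.symm hb)⟩

lemma pe_inj (F : FanData E c p N) {k k' : ℕ} (hk : k + 1 < 3 * N + 6) (hk' : k' + 1 < 3 * N + 6)
    (h : s(p k, p (k + 1)) = s(p k', p (k' + 1))) : k = k' := by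
  rcases Sym2.eq_iff.1 h with q | q
  · exact F.hp _ (by omega) _ (by omega) q.1
  · have h1 := F.hp _ (by omega) _ (by omega) q.1
    have h2 := F.hp _ (by omega) _ (by omega) q.2
    omega

lemma spoke_ne_pe (F : FanData E c p N) {k : ℕ} (hk : k + 1 < 3 * N + 6) (w : V) :
    s(c, w) ≠ s(p k, p (k + 1)) := by
  intro h
  rcases Sym2.eq_iff.1 h with q | q
  · exact F.hc _ (by omega) q.1.symm
  · exact F.hc _ (by omega) q.1.symm

lemma spoke_inj (F : FanData E c p N) {k k' : ℕ} (hk : k < 3 * N + 6) (hk' : k' < 3 * N + 6)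
    (h : s(c, p k) = s(c, p k')) : k = k' := by
  rcases Sym2.eq_iff.1 h with q | q
  · exact F.hp _ hk _ hk' q.2
  · exact absurd q.2 (F.hc _ hk)

theorem no_model (F : FanData E c p N) (hN : N = 1999999998) (M : FModel E) : False := by
  classical
  obtain ⟨α, hα⟩ : ∃ α : ℕ → ℝ, α = fun s => M.X (p (botI s)) (p (topI s)) (M.y c) := ⟨_, rfl⟩
  have P : ∀ i s, ∃ k : ℕ, ∃ e : Sym2 V, i < N → s ≤ N → Btw (keyOf (M.x c) α) i s →
      3 * i + 2 ≤ k ∧ k ≤ 3 * i + 5 ∧
      (e = s(p (3 * s + 2), p (3 * s + 2 + 1)) ∨ e = s(c, p (3 * s + 2)) ∨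
        e = s(c, p (3 * s + 3))) ∧ M.Meet s(p k, p (k + 1)) e ∧ e ≠ s(p k, p (k + 1)) := by
    intro i s
    by_cases hh : i < N ∧ s ≤ N ∧ Btw (keyOf (M.x c) α) i s
    · obtain ⟨hi, hs, hb⟩ := hh
      obtain ⟨k, k1, k2, e, he, hm⟩ := F.pass M hi hs (hα ▸ hb)
      refine ⟨k, e, fun _ _ _ => ⟨k1, k2, he, hm, ?_⟩⟩
      rcases he with rfl | rfl | rfl
      · intro h
        have := F.pe_inj (by omega) (by omega) h
        have : s = i ∨ s = i + 1 := by omega
        rcases this with rfl | rfl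
        · rcases hb with hb | hb
          · exact lt_irrefl _ hb.1
          · exact lt_irrefl _ hb.2
        · rcases hb with hb | hb
          · exact lt_irrefl _ hb.2
          · exact lt_irrefl _ hb.1
      · exact F.spoke_ne_pe (by omega) _
      · exact F.spoke_ne_pe (by omega) _
    · exact ⟨0, s(c, c), fun a b d => absurd ⟨a, b, d⟩ hh⟩
  choose kk ee hP using P
  refine comb N hN (keyOf (M.x c) α) (fun i _ j _ h => key_inj h) (fun i => M.x c < α i)
    (fun i _ j _ a b => key_side a b) ?_ ?_ ?_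
  · intro i hi
    have : (Finset.Icc (3 * i + 2) (3 * i + 5)).card = 4 := by simp
    rw [← this]
    refine Finset.card_le_card_of_injOn (fun s => kk i s) ?_ ?_
    · intro s hs
      simp only [Finset.coe_filter, Finset.mem_range, mem_ofPred_eq] at hs
      obtain ⟨k1, k2, -⟩ := hP i s hi (by omega) hs.2
      simp only [Finset.coe_Icc, mem_Icc]
      exact ⟨k1, k2⟩
    · intro s hs s' hs' hss
      simp only [Finset.coe_filter, Finset.mem_range, mem_ofPred_eq] at hs hs'
      obtain ⟨k1, k2, he, hm, hn⟩ := hP i s hi (by omega) hs.2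
      obtain ⟨k1', k2', he', hm', hn'⟩ := hP i s' hi (by omega) hs'.2
      simp only at hss
      rw [← hss] at hm' hn'
      have e := hm.unique hm' hn hn'
      rw [e] at he
      have hs1 := hs.1
      have hs2 := hs'.1
      rcases he with he | he | he <;> rcases he' with he' | he' | he' <;> rw [he'] at he
      · have := F.pe_inj (by omega) (by omega) he; omega
      · exact absurd he (F.spoke_ne_pe (by omega) _)
      · exact absurd he (F.spoke_ne_pe (by omega) _)
      · exact absurd he.symm (F.spoke_ne_pe (by omega) _)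
      · have := F.spoke_inj (by omega) (by omega) he; omega
      · have := F.spoke_inj (by omega) (by omega) he; omega
      · exact absurd he.symm (F.spoke_ne_pe (by omega) _)
      · have := F.spoke_inj (by omega) (by omega) he; omega
      · have := F.spoke_inj (by omega) (by omega) he; omega
  · intro s hs
    have : (({s(p (3 * s + 2), p (3 * s + 2 + 1)), s(c, p (3 * s + 2)), s(c, p (3 * s + 3))} :
        Finset (Sym2 V)) ×ˢ Finset.range 2).card ≤ 6 := by
      rw [Finset.card_product, Finset.card_range]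
      have : ({s(p (3 * s + 2), p (3 * s + 2 + 1)), s(c, p (3 * s + 2)), s(c, p (3 * s + 3))} :
        Finset (Sym2 V)).card ≤ 3 := Finset.card_le_three
      omega
    refine le_trans (Finset.card_le_card_of_injOn (fun i => (ee i s, i % 2)) ?_ ?_) this
    · intro i hi
      simp only [Finset.coe_filter, Finset.mem_range, mem_ofPred_eq] at hi
      obtain ⟨-, -, he, -⟩ := hP i s hi.1 hs hi.2
      simp only [Finset.coe_product, Finset.coe_insert, Finset.coe_singleton, Finset.coe_range,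
        mem_prod, mem_insert_iff, mem_singleton_iff, mem_Iio]
      exact ⟨he, by omega⟩
    · intro i hi i' hi' hii
      simp only [Finset.coe_filter, Finset.mem_range, mem_ofPred_eq] at hi hi'
      obtain ⟨k1, k2, he, hm, hn⟩ := hP i s hi.1 hs hi.2
      obtain ⟨k1', k2', he', hm', hn'⟩ := hP i' s hi'.1 hs hi'.2
      simp only [Prod.mk.injEq] at hii
      rw [← hii.1] at hm' hn'
      have e := hm.symm.unique hm'.symm hn.symm hn'.symm
      have hi1 := hi.1
      have hi2 := hi'.1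
      have := F.pe_inj (by omega) (by omega) e
      omega
  · intro i hi u s1 s2
    have ne1 : ∀ a b : ℕ, a ≠ b → keyOf (M.x c) α a ≠ keyOf (M.x c) α b :=
      fun a b h k => h (key_inj k)
    have u2 : (strandUp (i + 1) ↔ M.x c < α (i + 1)) ↔ (strandUp i ↔ M.x c < α i) := by
      rw [← u, ← s1]
    rcases F.step M (i := i) (by omega) α hα s1 with a | a <;>
      rcases F.step M (i := i + 1) (by omega) α hα s2 with b | b
    · exact ⟨fun h => (a.1 h).trans (b.1 (u2.2 h)),
        fun h => (b.2 (fun k => h (u2.1 k))).trans (a.2 h)⟩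
    · constructor
      · intro h
        by_contra k
        exact b.2 i (by omega) (Or.inr ⟨lt_of_le_of_ne (not_lt.1 k) (ne1 _ _ (by omega)), a.1 h⟩)
      · intro h
        by_contra k
        exact b.2 i (by omega) (Or.inl ⟨a.2 h, lt_of_le_of_ne (not_lt.1 k) (ne1 _ _ (by omega))⟩)
    · constructor
      · intro h
        by_contra k
        exact a.2 (i + 2) (by omega)
          (Or.inr ⟨b.1 (u2.2 h), lt_of_le_of_ne (not_lt.1 k) (ne1 _ _ (by omega))⟩)
      · intro h
        by_contra k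
        exact a.2 (i + 2) (by omega)
          (Or.inl ⟨lt_of_le_of_ne (not_lt.1 k) (ne1 _ _ (by omega)), b.2 (fun k => h (u2.1 k))⟩)
    · exfalso
      have := a.1.symm.unique b.1 (fun h => by have := F.pe_inj (by omega) (by omega) h; omega)
        (fun h => by have := F.pe_inj (by omega) (by omega) h; omega)
      have := F.pe_inj (by omega) (by omega) this
      omega

end FanData

end Pool.Agent.P.MP_c2502c_co
end

-- part Pool.Agent.P.MP_c2502c_co.Bridge
section

namespace Pool.Agent.P.MP_c2502c_co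

open Set

lemma exists_graph {a b : ℝ × ℝ} (γ : Path a b) (hγ : StrictMono fun t : unitInterval => (γ t).2) :
    a.2 < b.2 ∧ ∃ X : ℝ → ℝ, Continuous X ∧ X a.2 = a.1 ∧ X b.2 = b.1 ∧
      ∀ h, a.2 < h → h < b.2 → ∃ t : unitInterval, t ≠ 0 ∧ t ≠ 1 ∧ γ t = (X h, h) := by
  have h01 : a.2 < b.2 := by
    have := hγ (show (0 : unitInterval) < 1 from zero_lt_one)
    simpa using this
  refine ⟨h01, ?_⟩
  have hc : Continuous fun t : unitInterval => (γ t).2 := continuous_snd.comp γ.continuous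
  have hmem : ∀ t : unitInterval, (γ t).2 ∈ Icc a.2 b.2 := fun t =>
    ⟨by simpa using hγ.monotone (unitInterval.nonneg' : (0 : unitInterval) ≤ t),
     by simpa using hγ.monotone (unitInterval.le_one' : t ≤ (1 : unitInterval))⟩
  let φ : unitInterval → Icc a.2 b.2 := fun t => ⟨(γ t).2, hmem t⟩
  have hφc : Continuous φ := hc.subtype_mk _
  have hφi : Function.Injective φ := fun s t h => hγ.injective (congrArg Subtype.val h)
  have hφs : Function.Surjective φ := by
    rintro ⟨h, hh⟩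
    have := intermediate_value_univ (0 : unitInterval) 1 hc
    obtain ⟨t, ht⟩ := this (show h ∈ Icc (γ 0).2 (γ 1).2 by simpa using hh)
    exact ⟨t, Subtype.ext ht⟩
  let e : unitInterval ≃ₜ Icc a.2 b.2 :=
    Continuous.homeoOfEquivCompactToT2 (f := Equiv.ofBijective φ ⟨hφi, hφs⟩) hφc
  have he : ∀ t, e t = φ t := fun t => rfl
  have key : ∀ h (hh : h ∈ Icc a.2 b.2), (γ (e.symm ⟨h, hh⟩)).2 = h := by
    intro h hh
    have := e.apply_symm_apply ⟨h, hh⟩
    rw [he] at this
    exact congrArg Subtype.val this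
  refine ⟨fun h => (γ (e.symm (projIcc a.2 b.2 h01.le h))).1, ?_, ?_, ?_, ?_⟩
  · exact continuous_fst.comp (γ.continuous.comp (e.symm.continuous.comp continuous_projIcc))
  · have : e.symm (projIcc a.2 b.2 h01.le a.2) = 0 := by
      rw [projIcc_left]
      apply hγ.injective
      simp only [key]
      simp
    simp only [this]
    simp
  · have : e.symm (projIcc a.2 b.2 h01.le b.2) = 1 := by
      rw [projIcc_right]
      apply hγ.injective
      simp only [key]
      simp
    simp only [this]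
    simp
  · intro h h1 h2
    have hh : h ∈ Icc a.2 b.2 := ⟨h1.le, h2.le⟩
    refine ⟨e.symm ⟨h, hh⟩, ?_, ?_, ?_⟩
    · intro h0
      have := key h hh
      rw [h0] at this
      simp at this
      linarith
    · intro h0
      have := key h hh
      rw [h0] at this
      simp at this
      linarith
    · simp only [projIcc_of_mem _ hh]
      exact Prod.ext rfl (key h hh)

theorem exists_model {V : Type} {E : V → V → Prop} (G : PlaneDrawing E) (hu : DrawnUpward G)
    (h1 : AtMostCrossed G 1) : Nonempty (FModel E) := by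
  have P : ∀ u v, ∃ X : ℝ → ℝ, ∀ h : E u v, Continuous X ∧ X (G.place u).2 = (G.place u).1 ∧
      X (G.place v).2 = (G.place v).1 ∧ ∀ z, (G.place u).2 < z → z < (G.place v).2 →
        ∃ t : unitInterval, t ≠ 0 ∧ t ≠ 1 ∧ G.curve u v h t = (X z, z) := by
    intro u v
    by_cases h : E u v
    · obtain ⟨-, X, hX⟩ := exists_graph (G.curve u v h) (hu u v h)
      exact ⟨X, fun _ => hX⟩
    · exact ⟨fun _ => 0, fun k => absurd k h⟩
  choose X hX using P
  have mem : ∀ u v (h : E u v) z, (G.place u).2 < z → z < (G.place v).2 →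
      (X u v z, z) ∈ openArcOf G u v h := by
    intro u v h z z1 z2
    obtain ⟨t, t0, t1, ht⟩ := (hX u v h).2.2.2 z z1 z2
    exact ⟨t, ⟨t0, t1⟩, ht⟩
  refine ⟨⟨fun v => (G.place v).1, fun v => (G.place v).2, X,
    fun u v h => (exists_graph (G.curve u v h) (hu u v h)).1,
    fun u v h => (hX u v h).1.continuousOn, fun u v h => (hX u v h).2.1,
    fun u v h => (hX u v h).2.2.1, fun u v a b => G.place_inj (Prod.ext a b), ?_, ?_⟩⟩
  · intro u v w h z1 z2 hz
    obtain ⟨t, t0, t1, ht⟩ := (hX u v h).2.2.2 _ z1 z2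
    exact G.curve_avoid u v h t w t0 t1 (ht.trans (Prod.ext hz rfl))
  · intro u v a b a' b' z z' e1 e2 e3 n1 n2 p1 p2 p3 p4 p5 q1 q2 q3 q4 q5
    have h2 := h1 u v e1
    rw [Nat.cast_one] at h2
    have := encard_le_one_iff.1 h2 ((a, b), (X u v z, z)) ((a', b'), (X u v z', z'))
      ⟨e2, n1, mem u v e1 z p1 p2, by rw [p5]; exact mem a b e2 z p3 p4⟩
      ⟨e3, n2, mem u v e1 z' q1 q2, by rw [q5]; exact mem a' b' e3 z' q3 q4⟩
    exact congrArg Prod.fst this

end Pool.Agent.P.MP_c2502c_co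
end

-- part Pool.Agent.P.MP_c2502c_co.Outer
section

namespace Pool.Agent.P.MP_c2502c_co

open Set

def spokeSet (i : ℕ) : Set (ℝ × ℝ) := {p | 0 < p.2 ∧ p.2 < 1 ∧ p.1 = i * p.2}
def rimSet (i : ℕ) : Set (ℝ × ℝ) := {p | p.2 = 1 ∧ (i : ℝ) < p.1 ∧ p.1 < i + 1}
def triSet (i : ℕ) : Set (ℝ × ℝ) := {p | p.2 < 1 ∧ i * p.2 < p.1 ∧ p.1 < (i + 1) * p.2}
def outSet (n : ℕ) : Set (ℝ × ℝ) := {p | 1 < p.2 ∨ p.1 < 0 ∨ ((n : ℝ) - 1) * p.2 < p.1}

def fanPlace {n : ℕ} : Option (Fin n) → ℝ × ℝ
  | none => (0, 0)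
  | some i => ((i.val : ℝ), 1)

lemma fanPlace_inj {n : ℕ} : Function.Injective (fanPlace (n := n)) := by
  rintro (_ | i) (_ | j) h
  · rfl
  · simp [fanPlace] at h
  · simp [fanPlace] at h
  · simp only [fanPlace, Prod.mk.injEq, Nat.cast_inj, and_true] at h
    rw [Fin.ext h]

lemma seg_mem (a b p : ℝ × ℝ) :
    p ∈ Path.segment a b '' {t : unitInterval | t ≠ 0 ∧ t ≠ 1} ↔
      ∃ t : ℝ, 0 < t ∧ t < 1 ∧ p.1 = a.1 + t * (b.1 - a.1) ∧ p.2 = a.2 + t * (b.2 - a.2) := by
  constructor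
  · rintro ⟨t, ⟨t0, t1⟩, rfl⟩
    refine ⟨t, lt_of_le_of_ne t.2.1 (fun h => t0 (Subtype.ext h.symm)),
      lt_of_le_of_ne t.2.2 (fun h => t1 (Subtype.ext h)), ?_, ?_⟩ <;>
    simp [AffineMap.lineMap_apply] <;> ring
  · rintro ⟨t, t0, t1, h1, h2⟩
    refine ⟨⟨t, t0.le, t1.le⟩, ⟨fun h => ?_, fun h => ?_⟩, ?_⟩
    · exact t0.ne' (congrArg Subtype.val h)
    · exact t1.ne (congrArg Subtype.val h)
    · ext
      · rw [h1]; simp [AffineMap.lineMap_apply]; ring
      · rw [h2]; simp [AffineMap.lineMap_apply]; ring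

lemma seg_up (i : ℕ) :
    Path.segment ((0, 0) : ℝ × ℝ) ((i : ℝ), 1) '' {t : unitInterval | t ≠ 0 ∧ t ≠ 1} =
      spokeSet i := by
  ext p
  rw [seg_mem]
  constructor
  · rintro ⟨t, t0, t1, h1, h2⟩
    simp only [sub_zero, zero_add, mul_one] at h1 h2
    exact ⟨by linarith, by linarith, by rw [h1, h2]; ring⟩
  · rintro ⟨h0, h1, h2⟩
    exact ⟨p.2, h0, h1, by rw [h2]; ring, by simp⟩

lemma seg_down (i : ℕ) :
    Path.segment (((i : ℝ), 1) : ℝ × ℝ) (0, 0) '' {t : unitInterval | t ≠ 0 ∧ t ≠ 1} =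
      spokeSet i := by
  ext p
  rw [seg_mem]
  constructor
  · rintro ⟨t, t0, t1, h1, h2⟩
    simp only at h1 h2
    exact ⟨by linarith, by linarith, by rw [h1, h2]; ring⟩
  · rintro ⟨h0, h1, h2⟩
    exact ⟨1 - p.2, by linarith, by linarith, by rw [h2]; ring, by simp⟩

lemma seg_right (i j : ℕ) (h : i + 1 = j) :
    Path.segment (((i : ℝ), 1) : ℝ × ℝ) ((j : ℝ), 1) '' {t : unitInterval | t ≠ 0 ∧ t ≠ 1} =
      rimSet i := by
  ext p
  rw [seg_mem, ← h]
  push_cast
  constructor
  · rintro ⟨t, t0, t1, h1, h2⟩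
    exact ⟨by linarith, by linarith, by linarith⟩
  · rintro ⟨h0, h1, h2⟩
    exact ⟨p.1 - i, by linarith, by linarith, by ring, by simp [h0]⟩

lemma seg_left (i j : ℕ) (h : i + 1 = j) :
    Path.segment (((j : ℝ), 1) : ℝ × ℝ) ((i : ℝ), 1) '' {t : unitInterval | t ≠ 0 ∧ t ≠ 1} =
      rimSet i := by
  ext p
  rw [seg_mem, ← h]
  push_cast
  constructor
  · rintro ⟨t, t0, t1, h1, h2⟩
    exact ⟨by linarith, by linarith, by linarith⟩
  · rintro ⟨h0, h1, h2⟩
    exact ⟨i + 1 - p.1, by linarith, by linarith, by ring, by simp [h0]⟩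

lemma cc_eq {F U W : Set (ℝ × ℝ)} {x : ℝ × ℝ} (hF : F = U ∪ W) (hU : IsOpen U) (hW : IsOpen W)
    (hd : Disjoint U W) (hc : IsPreconnected U) (hx : x ∈ U) : connectedComponentIn F x = U := by
  have hUF : U ⊆ F := by rw [hF]; exact subset_union_left
  refine Subset.antisymm ?_ (hc.subset_connectedComponentIn hx hUF)
  refine IsPreconnected.subset_left_of_subset_union hU hW hd ?_ ⟨x, mem_connectedComponentIn
    (hUF hx), hx⟩ isPreconnected_connectedComponentIn
  rw [← hF]
  exact connectedComponentIn_subset F x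

lemma tri_open (i : ℕ) : IsOpen (triSet i) := by
  have h1 : IsOpen {p : ℝ × ℝ | p.2 < 1} := isOpen_lt (by fun_prop) (by fun_prop)
  have h2 : IsOpen {p : ℝ × ℝ | i * p.2 < p.1} := isOpen_lt (by fun_prop) (by fun_prop)
  have h3 : IsOpen {p : ℝ × ℝ | p.1 < (i + 1) * p.2} := isOpen_lt (by fun_prop) (by fun_prop)
  exact h1.inter (h2.inter h3)

lemma out_open (n : ℕ) : IsOpen (outSet n) := by
  have h1 : IsOpen {p : ℝ × ℝ | 1 < p.2} := isOpen_lt (by fun_prop) (by fun_prop)
  have h2 : IsOpen {p : ℝ × ℝ | p.1 < 0} := isOpen_lt (by fun_prop) (by fun_prop)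
  have h3 : IsOpen {p : ℝ × ℝ | ((n : ℝ) - 1) * p.2 < p.1} := isOpen_lt (by fun_prop) (by fun_prop)
  exact h1.union (h2.union h3)

lemma half_convex (a b c : ℝ) : Convex ℝ {p : ℝ × ℝ | a * p.1 + b * p.2 < c} := by
  have : IsLinearMap ℝ (fun p : ℝ × ℝ => a * p.1 + b * p.2) :=
    ⟨fun x y => by simp; ring, fun r x => by simp; ring⟩
  exact convex_halfSpace_lt this c

lemma tri_preconn (i : ℕ) : IsPreconnected (triSet i) := by
  have : triSet i = {p : ℝ × ℝ | 0 * p.1 + 1 * p.2 < 1} ∩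
      ({p : ℝ × ℝ | (-1) * p.1 + i * p.2 < 0} ∩ {p : ℝ × ℝ | 1 * p.1 + (-(i + 1)) * p.2 < 0}) := by
    ext p
    simp only [triSet, mem_ofPred_eq, mem_inter_iff]
    constructor <;> rintro ⟨h1, h2, h3⟩ <;> exact ⟨by linarith, by linarith, by linarith⟩
  rw [this]
  exact ((half_convex _ _ _).inter ((half_convex _ _ _).inter (half_convex _ _ _))).isPreconnected

lemma out_preconn {n : ℕ} (hn : 2 ≤ n) : IsPreconnected (outSet n) := by
  have hn' : (2 : ℝ) ≤ n := by exact_mod_cast hn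
  have : outSet n = ({p : ℝ × ℝ | 0 * p.1 + (-1) * p.2 < -1} ∪
      {p : ℝ × ℝ | 1 * p.1 + 0 * p.2 < 0}) ∪ {p : ℝ × ℝ | (-1) * p.1 + (n - 1) * p.2 < 0} := by
    ext p
    simp only [outSet, mem_ofPred_eq, mem_union]
    constructor
    · rintro (h | h | h)
      · exact Or.inl (Or.inl (by linarith))
      · exact Or.inl (Or.inr (by linarith))
      · exact Or.inr (by linarith)
    · rintro ((h | h) | h)
      · exact Or.inl (by linarith)
      · exact Or.inr (Or.inl (by linarith))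
      · exact Or.inr (Or.inr (by linarith))
  rw [this]
  refine IsPreconnected.union ((-1, -2) : ℝ × ℝ) (Or.inr (by simp)) (by simp; linarith)
    (IsPreconnected.union ((-1, 2) : ℝ × ℝ) (by simp) (by simp)
      (half_convex _ _ _).isPreconnected (half_convex _ _ _).isPreconnected)
    (half_convex _ _ _).isPreconnected

lemma tri_pos {i : ℕ} {p : ℝ × ℝ} (h : p ∈ triSet i) : 0 < p.2 := by
  obtain ⟨-, h2, h3⟩ := h
  linarith

lemma tri_disj {i j : ℕ} {p : ℝ × ℝ} (h : p ∈ triSet i) (h' : p ∈ triSet j) : i = j := by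
  have h0 := tri_pos h
  obtain ⟨-, h2, h3⟩ := h
  obtain ⟨-, h4, h5⟩ := h'
  have a : (i : ℝ) < j + 1 := lt_of_mul_lt_mul_right (h2.trans h5) h0.le
  have b : (j : ℝ) < i + 1 := lt_of_mul_lt_mul_right (h4.trans h3) h0.le
  have a' : i < j + 1 := by exact_mod_cast a
  have b' : j < i + 1 := by exact_mod_cast b
  omega

lemma tri_out {n i : ℕ} (hi : i + 1 < n) {p : ℝ × ℝ} (h : p ∈ triSet i) : p ∉ outSet n := by
  have h0 := tri_pos h
  obtain ⟨h1, h2, h3⟩ := h
  have hi' : (i : ℝ) + 1 ≤ n - 1 := by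
    have : i + 2 ≤ n := hi
    have : ((i + 2 : ℕ) : ℝ) ≤ n := by exact_mod_cast this
    push_cast at this
    linarith
  rintro (k | k | k)
  · linarith
  · have : 0 ≤ (i : ℝ) * p.2 := by positivity
    linarith
  · nlinarith

lemma tri_bounded (i : ℕ) : Bornology.IsBounded (triSet i) := by
  refine ((Metric.isBounded_Icc (0 : ℝ) (i + 1)).prod (Metric.isBounded_Icc (0 : ℝ) 1)).subset ?_
  intro p h
  have h0 := tri_pos h
  obtain ⟨h1, h2, h3⟩ := h
  have : 0 ≤ (i : ℝ) * p.2 := by positivity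
  have h4 : (0 : ℝ) ≤ i := by positivity
  exact ⟨⟨by linarith, by nlinarith⟩, h0.le, h1.le⟩

lemma out_unbounded (n : ℕ) : ¬ Bornology.IsBounded (outSet n) := by
  intro h
  obtain ⟨C, hC⟩ := h.exists_norm_le
  have := hC ((0, |C| + 2) : ℝ × ℝ) (Or.inl (by simp only; linarith [abs_nonneg C]))
  have h2 : ‖(|C| + 2 : ℝ)‖ ≤ ‖((0, |C| + 2) : ℝ × ℝ)‖ := norm_snd_le ((0, |C| + 2) : ℝ × ℝ)
  rw [Real.norm_eq_abs, abs_of_nonneg (by positivity)] at h2
  linarith [le_abs_self C]

lemma mem_closure_shift {S : Set (ℝ × ℝ)} {p v : ℝ × ℝ} {r : ℝ} (hr : 0 < r)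
    (h : ∀ δ : ℝ, 0 < δ → δ < r → p + δ • v ∈ S) : p ∈ closure S := by
  have ht : Filter.Tendsto (fun δ : ℝ => p + δ • v) (nhdsWithin 0 (Ioi 0)) (nhds p) := by
    have : Continuous fun δ : ℝ => p + δ • v := by fun_prop
    have := this.tendsto 0
    simp only [zero_smul, add_zero] at this
    exact this.mono_left nhdsWithin_le_nhds
  refine mem_closure_of_tendsto ht ?_
  filter_upwards [Ioo_mem_nhdsGT hr] with δ hδ using h δ hδ.1 hδ.2

lemma spoke_sub_left (i : ℕ) : spokeSet i ⊆ closure (triSet i) := by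
  rintro p ⟨h0, h1, h2⟩
  refine mem_closure_shift (v := (1, 0)) h0 fun δ a b => ?_
  simp only [triSet, mem_ofPred_eq, Prod.fst_add, Prod.snd_add, Prod.smul_mk, smul_eq_mul]
  exact ⟨by linarith, by linarith, by linarith⟩

lemma spoke_sub_right (i : ℕ) : spokeSet (i + 1) ⊆ closure (triSet i) := by
  rintro p ⟨h0, h1, h2⟩
  push_cast at h2
  refine mem_closure_shift (v := (-1, 0)) h0 fun δ a b => ?_
  simp only [triSet, mem_ofPred_eq, Prod.fst_add, Prod.snd_add, Prod.smul_mk, smul_eq_mul]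
  exact ⟨by linarith, by linarith, by linarith⟩

lemma closure_tri {i : ℕ} {p : ℝ × ℝ} (h : p ∈ closure (triSet i)) :
    i * p.2 ≤ p.1 ∧ p.1 ≤ (i + 1) * p.2 := by
  have h1 : IsClosed {p : ℝ × ℝ | i * p.2 ≤ p.1} := isClosed_le (by fun_prop) (by fun_prop)
  have h2 : IsClosed {p : ℝ × ℝ | p.1 ≤ (i + 1) * p.2} := isClosed_le (by fun_prop) (by fun_prop)
  exact ⟨closure_minimal (fun q hq => hq.2.1.le) h1 h, closure_minimal (fun q hq => hq.2.2.le) h2 h⟩

lemma closure_tri_two {i j : ℕ} {p : ℝ × ℝ} (h0 : 0 < p.2) (h : p ∈ closure (triSet i))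
    (h' : p ∈ closure (triSet j)) : j ≤ i + 1 := by
  have a : (j : ℝ) ≤ i + 1 :=
    le_of_mul_le_mul_right ((closure_tri h').1.trans (closure_tri h).2) h0
  exact_mod_cast a

lemma cover_plane {n : ℕ} (hn : 2 ≤ n) (p : ℝ × ℝ) (hp : p ∉ outSet n) :
    p = (0, 0) ∨ (∃ i < n, p = ((i : ℝ), 1)) ∨ (∃ i < n, p ∈ spokeSet i) ∨
      (∃ i, i + 1 < n ∧ p ∈ rimSet i) ∨ (∃ i, i + 1 < n ∧ p ∈ triSet i) := by
  have hn' : (2 : ℝ) ≤ n := by exact_mod_cast hn
  simp only [outSet, mem_ofPred_eq, not_or, not_lt] at hp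
  obtain ⟨h1, h2, h3⟩ := hp
  have h0 : 0 ≤ p.2 := by
    by_contra h
    have := not_le.1 h
    nlinarith
  rcases h0.eq_or_lt with h0 | h0
  · left
    rw [← h0] at h3
    exact Prod.ext (by simp only; linarith) h0.symm
  obtain ⟨r, hr⟩ : ∃ r, r = p.1 / p.2 := ⟨_, rfl⟩
  have hr1 : p.1 = r * p.2 := by rw [hr]; field_simp
  have r0 : 0 ≤ r := by rw [hr]; positivity
  have r1 : r ≤ n - 1 := by rw [hr, div_le_iff₀ h0]; exact h3
  have f1 : (⌊r⌋₊ : ℝ) ≤ r := Nat.floor_le r0
  have f2 : r < ⌊r⌋₊ + 1 := Nat.lt_floor_add_one r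
  rcases f1.eq_or_lt with f1 | f1
  · have : ⌊r⌋₊ < n := by
      have : (⌊r⌋₊ : ℝ) < n := by linarith
      exact_mod_cast this
    rcases h1.eq_or_lt with h1 | h1
    · exact Or.inr (Or.inl ⟨_, this, Prod.ext (by rw [hr1, h1, f1]; simp) h1⟩)
    · exact Or.inr (Or.inr (Or.inl ⟨_, this, h0, h1, by rw [hr1, f1]⟩))
  · have : ⌊r⌋₊ + 1 < n := by
      have : (⌊r⌋₊ : ℝ) + 1 < n := by linarith
      exact_mod_cast this
    rcases h1.eq_or_lt with h1 | h1
    · refine Or.inr (Or.inr (Or.inr (Or.inl ⟨_, this, h1, ?_, ?_⟩))) <;> rw [hr1, h1] <;> linarith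
    · refine Or.inr (Or.inr (Or.inr (Or.inr ⟨_, this, h1, ?_, ?_⟩))) <;> rw [hr1]
      · exact mul_lt_mul_of_pos_right f1 h0
      · exact mul_lt_mul_of_pos_right f2 h0

end Pool.Agent.P.MP_c2502c_co
end

-- part Pool.Agent.P.MP_c2502c_co.Main
section

namespace Pool.Agent.P.MP_c2502c_co

open Set

section outer

variable {n : ℕ} {D : Option (Fin n) → Option (Fin n) → Prop}

lemma arc_cases (h0 : ¬ D none none)
    (hr : ∀ i j : Fin n, D (some i) (some j) → i.val + 1 = j.val ∨ j.val + 1 = i.val)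
    (u v : Option (Fin n)) (h : D u v) :
    (∃ i : Fin n, ((u, v) = (none, some i) ∨ (u, v) = (some i, none)) ∧
      Path.segment (fanPlace u) (fanPlace v) '' {t : unitInterval | t ≠ 0 ∧ t ≠ 1} = spokeSet i) ∨
    (∃ i j : Fin n, i.val + 1 = j.val ∧ ((u, v) = (some i, some j) ∨ (u, v) = (some j, some i)) ∧
      Path.segment (fanPlace u) (fanPlace v) '' {t : unitInterval | t ≠ 0 ∧ t ≠ 1} = rimSet i) := by
  rcases u with _ | i <;> rcases v with _ | j
  · exact absurd h h0
  · exact Or.inl ⟨j, Or.inl rfl, seg_up j⟩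
  · exact Or.inl ⟨i, Or.inr rfl, seg_down i⟩
  · rcases hr i j h with k | k
    · exact Or.inr ⟨i, j, k, Or.inl rfl, seg_right i j k⟩
    · exact Or.inr ⟨j, i, k, Or.inr rfl, seg_left j i k⟩

lemma place_not_spoke (w : Option (Fin n)) (i : ℕ) : fanPlace w ∉ spokeSet i := by
  rcases w with _ | j <;> simp [fanPlace, spokeSet]

lemma place_not_rim (w : Option (Fin n)) (i : ℕ) : fanPlace w ∉ rimSet i := by
  rcases w with _ | j
  · simp [fanPlace, rimSet]
  · rintro ⟨-, h1, h2⟩
    have a : i < j.val := by exact_mod_cast (show (i : ℝ) < (j.val : ℝ) from h1)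
    have b : j.val < i + 1 := by exact_mod_cast (show (j.val : ℝ) < i + 1 from h2)
    omega

noncomputable def fanDrawing (h0 : ∀ v, ¬ D v v)
    (hr : ∀ i j : Fin n, D (some i) (some j) → i.val + 1 = j.val ∨ j.val + 1 = i.val) :
    PlaneDrawing D where
  place := fanPlace
  place_inj := fanPlace_inj
  curve := fun u v _ => Path.segment (fanPlace u) (fanPlace v)
  curve_inj := fun u v h => Path.segment_injective_of_ne fun k => by
    rw [fanPlace_inj k] at h
    exact h0 v h
  curve_avoid := fun u v h t w t0 t1 k => by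
    have hm : fanPlace w ∈
        Path.segment (fanPlace u) (fanPlace v) '' {t : unitInterval | t ≠ 0 ∧ t ≠ 1} :=
      ⟨t, ⟨t0, t1⟩, k⟩
    rcases arc_cases (h0 _) hr u v h with ⟨i, -, e⟩ | ⟨i, j, -, -, e⟩ <;> rw [e] at hm
    · exact place_not_spoke w i hm
    · exact place_not_rim w i hm

theorem fan_outerpath (hn : 2 ≤ n) (ha : ∀ u v, D u v → ¬ D v u)
    (hs : ∀ i : Fin n, D none (some i) ∨ D (some i) none)
    (hr : ∀ i j : Fin n, D (some i) (some j) ∨ D (some j) (some i) ↔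
      i.val + 1 = j.val ∨ j.val + 1 = i.val) : IsOuterpathGraph D := by
  have h0 : ∀ v, ¬ D v v := fun v h => ha v v h h
  have hr' : ∀ i j : Fin n, D (some i) (some j) → i.val + 1 = j.val ∨ j.val + 1 = i.val :=
    fun i j h => (hr i j).1 (Or.inl h)
  obtain ⟨G, hG⟩ : ∃ G, G = fanDrawing h0 hr' := ⟨_, rfl⟩
  have hpl : G.place = fanPlace := by rw [hG]; rfl
  have cases : ∀ u v (h : D u v),
      (∃ i : Fin n, ((u, v) = (none, some i) ∨ (u, v) = (some i, none)) ∧
        openArcOf G u v h = spokeSet i) ∨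
      (∃ i j : Fin n, i.val + 1 = j.val ∧ ((u, v) = (some i, some j) ∨ (u, v) = (some j, some i)) ∧
        openArcOf G u v h = rimSet i) := by
    intro u v h
    rw [hG]
    exact arc_cases (h0 _) hr' u v h
  have exS : ∀ i < n, ∃ u v h, openArcOf G u v h = spokeSet i := by
    intro i hi
    rcases hs ⟨i, hi⟩ with h | h
    · exact ⟨_, _, h, by rw [hG]; exact seg_up i⟩
    · exact ⟨_, _, h, by rw [hG]; exact seg_down i⟩
  have exR : ∀ i, i + 1 < n → ∃ u v h, openArcOf G u v h = rimSet i := by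
    intro i hi
    rcases (hr ⟨i, by omega⟩ ⟨i + 1, hi⟩).2 (Or.inl rfl) with h | h
    · exact ⟨_, _, h, by rw [hG]; exact seg_right i (i + 1) rfl⟩
    · exact ⟨_, _, h, by rw [hG]; exact seg_left i (i + 1) rfl⟩
  obtain ⟨K, hK⟩ : ∃ K, K = range G.place ∪ {p | ∃ u v h, p ∈ openArcOf G u v h} := ⟨_, rfl⟩
  have memK : ∀ p, p ∈ K ↔ (p = (0, 0) ∨ (∃ i < n, p = ((i : ℝ), 1)) ∨
      (∃ i < n, p ∈ spokeSet i) ∨ (∃ i, i + 1 < n ∧ p ∈ rimSet i)) := by
    intro p
    rw [hK, hpl]
    constructor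
    · rintro (⟨_ | i, rfl⟩ | ⟨u, v, h, hp⟩)
      · exact Or.inl rfl
      · exact Or.inr (Or.inl ⟨i, i.2, rfl⟩)
      · rcases cases u v h with ⟨i, -, e⟩ | ⟨i, j, k, -, e⟩ <;> rw [e] at hp
        · exact Or.inr (Or.inr (Or.inl ⟨i, i.2, hp⟩))
        · exact Or.inr (Or.inr (Or.inr ⟨i, by have := j.2; omega, hp⟩))
    · rintro (rfl | ⟨i, hi, rfl⟩ | ⟨i, hi, hp⟩ | ⟨i, hi, hp⟩)
      · exact Or.inl ⟨none, rfl⟩
      · exact Or.inl ⟨some ⟨i, hi⟩, rfl⟩
      · obtain ⟨u, v, h, e⟩ := exS i hi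
        exact Or.inr ⟨u, v, h, e ▸ hp⟩
      · obtain ⟨u, v, h, e⟩ := exR i hi
        exact Or.inr ⟨u, v, h, e ▸ hp⟩
  have hn' : (2 : ℝ) ≤ n := by exact_mod_cast hn
  have le_n : ∀ i < n, (i : ℝ) ≤ n - 1 := by
    intro i hi
    have : ((i + 1 : ℕ) : ℝ) ≤ n := by exact_mod_cast hi
    push_cast at this
    linarith
  have compl : ∀ p, p ∈ Kᶜ ↔ (p ∈ outSet n ∨ ∃ i, i + 1 < n ∧ p ∈ triSet i) := by
    intro p
    rw [mem_compl_iff, memK]
    constructor
    · intro h
      by_cases ho : p ∈ outSet n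
      · exact Or.inl ho
      · rcases cover_plane hn p ho with k | k | k | k | k
        · exact absurd (Or.inl k) h
        · exact absurd (Or.inr (Or.inl k)) h
        · exact absurd (Or.inr (Or.inr (Or.inl k))) h
        · exact absurd (Or.inr (Or.inr (Or.inr k))) h
        · exact Or.inr k
    · rintro (ho | ⟨j, hj, ht⟩) (rfl | ⟨i, hi, rfl⟩ | ⟨i, hi, a, b, c⟩ | ⟨i, hi, a, b, c⟩)
      · simp [outSet] at ho
        linarith
      · have := le_n i hi
        have h2 : (0 : ℝ) ≤ i := by positivity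
        rcases ho with k | k | k <;> simp only at k <;> linarith
      · have := le_n i hi
        have h2 : (0 : ℝ) ≤ i * p.2 := by positivity
        rcases ho with k | k | k
        · linarith
        · linarith
        · nlinarith
      · have := le_n (i + 1) hi
        push_cast at this
        have h2 : (0 : ℝ) ≤ i := by positivity
        rcases ho with k | k | k
        · linarith
        · linarith
        · rw [a] at k; linarith
      · exact lt_irrefl _ (tri_pos ht)
      · exact lt_irrefl _ ht.1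
      · obtain ⟨-, t2, t3⟩ := ht
        rw [c] at t2 t3
        have a1 : j < i := by exact_mod_cast lt_of_mul_lt_mul_right t2 a.le
        have a2 : i < j + 1 := by exact_mod_cast lt_of_mul_lt_mul_right t3 a.le
        omega
      · exact absurd ht.1 (by rw [a]; exact lt_irrefl _)
  have ccO : ∀ x ∈ outSet n, connectedComponentIn Kᶜ x = outSet n := by
    intro x hx
    refine cc_eq (W := ⋃ i ∈ {i | i + 1 < n}, triSet i) ?_ (out_open n)
      (isOpen_biUnion fun i _ => tri_open i) ?_ (out_preconn hn) hx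
    · ext p
      rw [compl]
      simp
    · rw [disjoint_left]
      intro p hp hq
      simp only [mem_ofPred_eq, mem_iUnion, exists_prop] at hq
      obtain ⟨i, hi, hq⟩ := hq
      exact tri_out hi hq hp
  have ccT : ∀ i, i + 1 < n → ∀ x ∈ triSet i, connectedComponentIn Kᶜ x = triSet i := by
    intro i hi x hx
    refine cc_eq (W := outSet n ∪ ⋃ j ∈ {j | j + 1 < n ∧ j ≠ i}, triSet j) ?_ (tri_open i)
      ((out_open n).union (isOpen_biUnion fun i _ => tri_open i)) ?_ (tri_preconn i) hx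
    · ext p
      rw [compl]
      simp only [mem_union, mem_ofPred_eq, mem_iUnion, exists_prop]
      constructor
      · rintro (h | ⟨j, hj, h⟩)
        · exact Or.inr (Or.inl h)
        · by_cases e : j = i
          · exact Or.inl (e ▸ h)
          · exact Or.inr (Or.inr ⟨j, ⟨hj, e⟩, h⟩)
      · rintro (h | h | ⟨j, hj, h⟩)
        · exact Or.inr ⟨i, hi, h⟩
        · exact Or.inl h
        · exact Or.inr ⟨j, hj.1, h⟩
    · rw [disjoint_left]
      intro p hp hq
      simp only [mem_union, mem_ofPred_eq, mem_iUnion, exists_prop] at hq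
      rcases hq with hq | ⟨j, hj, hq⟩
      · exact tri_out hi hp hq
      · exact hj.2 (tri_disj hq hp)
  have triPt : ∀ i : ℕ, (((i : ℝ) + 1 / 2) / 2, (1 / 2 : ℝ)) ∈ triSet i := fun i =>
    ⟨by norm_num, by simp only; linarith, by simp only; linarith⟩
  have faces : ∀ F, F ∈ facesOf G ↔ (F = outSet n ∨ ∃ i, i + 1 < n ∧ F = triSet i) := by
    intro F
    unfold facesOf
    rw [← hK]
    constructor
    · rintro ⟨x, hx, rfl⟩
      rcases (compl x).1 hx with h | ⟨i, hi, h⟩
      · exact Or.inl (ccO x h)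
      · exact Or.inr ⟨i, hi, ccT i hi x h⟩
    · rintro (rfl | ⟨i, hi, rfl⟩)
      · have : ((0, 2) : ℝ × ℝ) ∈ outSet n := Or.inl (by norm_num)
        exact ⟨_, (compl _).2 (Or.inl this), (ccO _ this).symm⟩
      · exact ⟨_, (compl _).2 (Or.inr ⟨i, hi, triPt i⟩), (ccT i hi _ (triPt i)).symm⟩
  refine ⟨G, ?_, ⟨outSet n, (faces _).2 (Or.inl rfl), out_unbounded n, ?_⟩,
    n - 1, fun i => triSet i, ?_, ?_, ?_⟩
  · intro u v h
    rw [Nat.cast_zero, nonpos_iff_eq_zero, encard_eq_zero, eq_empty_iff_forall_notMem]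
    rintro ⟨⟨a, b⟩, p⟩ ⟨h', hne, p1, p2⟩
    simp only at h' hne p1 p2
    rcases cases u v h with ⟨i, hi, e⟩ | ⟨i, j, k, hi, e⟩ <;>
      rcases cases a b h' with ⟨i', hi', e'⟩ | ⟨i', j', k', hi', e'⟩ <;>
      rw [e] at p1 <;> rw [e'] at p2
    · have : i = i' := by
        have := mul_right_cancel₀ p1.1.ne' (p1.2.2.symm.trans p2.2.2)
        exact Fin.ext (by exact_mod_cast this)
      subst this
      simp only [Prod.mk.injEq] at hi hi'
      rcases hi with ⟨rfl, rfl⟩ | ⟨rfl, rfl⟩ <;> rcases hi' with ⟨rfl, rfl⟩ | ⟨rfl, rfl⟩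
      · exact hne rfl
      · exact ha _ _ h h'
      · exact ha _ _ h h'
      · exact hne rfl
    · exact absurd p1.2.1 (by rw [p2.1]; exact lt_irrefl _)
    · exact absurd p2.2.1 (by rw [p1.1]; exact lt_irrefl _)
    · have a1 : i.val < i'.val + 1 := by exact_mod_cast p1.2.1.trans p2.2.2
      have a2 : i'.val < i.val + 1 := by exact_mod_cast p2.2.1.trans p1.2.2
      obtain rfl : i = i' := Fin.ext (by omega)
      obtain rfl : j = j' := Fin.ext (by omega)
      simp only [Prod.mk.injEq] at hi hi'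
      rcases hi with ⟨rfl, rfl⟩ | ⟨rfl, rfl⟩ <;> rcases hi' with ⟨rfl, rfl⟩ | ⟨rfl, rfl⟩
      · exact hne rfl
      · exact ha _ _ h h'
      · exact ha _ _ h h'
      · exact hne rfl
  · intro v
    rw [hpl]
    rcases v with _ | i
    · refine mem_closure_shift (v := (-1, 0)) one_pos fun δ a _ => Or.inr (Or.inl ?_)
      simpa [fanPlace] using a
    · refine mem_closure_shift (v := (0, 1)) one_pos fun δ a _ => Or.inl ?_
      simpa [fanPlace] using a
  · intro i j h
    have : (((i.val : ℝ) + 1 / 2) / 2, (1 / 2 : ℝ)) ∈ triSet j := by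
      have := triPt i
      simp only at h
      rwa [h] at this
    exact Fin.ext (tri_disj (triPt i) this)
  · ext F
    simp only [mem_range, faces]
    constructor
    · rintro ⟨i, rfl⟩
      exact ⟨Or.inr ⟨i, by have := i.2; omega, rfl⟩, tri_bounded _⟩
    · rintro ⟨rfl | ⟨i, hi, rfl⟩, hb⟩
      · exact absurd hb (out_unbounded n)
      · exact ⟨⟨i, by omega⟩, rfl⟩
  · intro i j hij
    have hij' : i.val ≠ j.val := fun h => hij (Fin.ext h)
    constructor
    · rintro ⟨u, v, h, hsub⟩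
      have : ∃ p ∈ openArcOf G u v h, 0 < p.2 := by
        rcases cases u v h with ⟨k, -, e⟩ | ⟨k, l, -, -, e⟩ <;> rw [e]
        · exact ⟨((k.val : ℝ) * (1 / 2), 1 / 2), ⟨by norm_num, by norm_num, rfl⟩, by norm_num⟩
        · exact ⟨((k.val : ℝ) + 1 / 2, 1), ⟨rfl, by norm_num, by norm_num⟩, by norm_num⟩
      obtain ⟨p, hp, h0⟩ := this
      have a := closure_tri_two h0 (hsub hp).1 (hsub hp).2
      have b := closure_tri_two h0 (hsub hp).2 (hsub hp).1
      omega
    · have hi := i.2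
      have hj := j.2
      rintro (k | k)
      · obtain ⟨u, v, h, e⟩ := exS j (by omega)
        refine ⟨u, v, h, e ▸ subset_inter ?_ (spoke_sub_left _)⟩
        rw [← k]; exact spoke_sub_right _
      · obtain ⟨u, v, h, e⟩ := exS i (by omega)
        refine ⟨u, v, h, e ▸ subset_inter (spoke_sub_left _) ?_⟩
        rw [← k]; exact spoke_sub_right _

end outer

/-- the oriented fan -/
def fanD (n : ℕ) : Option (Fin n) → Option (Fin n) → Prop
  | none, none => False
  | none, some k => (k.val / 3) % 2 = 0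
  | some k, none => (k.val / 3) % 2 = 1
  | some i, some j => (i.val + 1 = j.val ∧ fwd i) ∨ (j.val + 1 = i.val ∧ ¬ fwd j)

open Classical in
noncomputable def level (k : ℕ) : ℤ :=
  if strandUp (k / 3 - 1) then 1 + (k % 3 : ℕ) else 3 - (k % 3 : ℕ)

noncomputable def height {n : ℕ} : Option (Fin n) → ℤ
  | none => 0
  | some k => if (k.val / 3) % 2 = 0 then level k else - level k

lemma level_pos (k : ℕ) : 0 < level k := by
  unfold level
  split_ifs <;> omega

lemma height_lt {n : ℕ} (u v : Option (Fin n)) (h : fanD n u v) : height u < height v := by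
  rcases u with _ | i <;> rcases v with _ | j
  · exact h.elim
  · have := level_pos j
    simp only [fanD] at h
    simp only [height, h, if_true]
    exact this
  · have := level_pos i
    simp only [fanD] at h
    simp only [height, h]
    simpa using this
  · have a := level_pos i
    have b := level_pos j
    simp only [fanD, fwd] at h
    simp only [height]
    rcases h with ⟨k, h | h⟩ | ⟨k, h⟩
    · rw [if_neg (by omega), if_pos (by omega)]; omega
    · have e : j.val / 3 = i.val / 3 := by omega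
      unfold level
      rw [e]
      by_cases u : strandUp (i.val / 3 - 1)
      · have := h.2.1 u
        simp only [this, u, if_true]; omega
      · have : ¬ (i.val / 3 % 2 = 0) := fun q => u (h.2.2 q)
        simp only [this, u, if_false]; omega
    · by_cases q : j.val % 3 = 2
      · have : ¬ (j.val / 3 % 2 = 1) := fun r => h (Or.inl ⟨q, r⟩)
        rw [if_neg (by omega), if_pos (by omega)]; omega
      · have e : i.val / 3 = j.val / 3 := by omega
        have h' : ¬ (strandUp (j.val / 3 - 1) ↔ j.val / 3 % 2 = 0) := fun r => h (Or.inr ⟨q, r⟩)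
        unfold level
        rw [e]
        by_cases u : strandUp (j.val / 3 - 1)
        · have : ¬ (j.val / 3 % 2 = 0) := fun q => h' (iff_of_true u q)
          simp only [this, u, if_true, if_false]; omega
        · have : j.val / 3 % 2 = 0 := by
            by_contra q
            exact h' (iff_of_false u q)
          simp only [this, u, if_true, if_false]; omega

theorem main : ∃ (n : ℕ) (D : Option (Fin n) → Option (Fin n) → Prop),
    (∀ v, ¬ Relation.TransGen D v v) ∧
    (∀ i : Fin n, D none (some i) ∨ D (some i) none) ∧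
    (∀ i j : Fin n, D (some i) (some j) ∨ D (some j) (some i) ↔
      i.val + 1 = j.val ∨ j.val + 1 = i.val) ∧
    IsOuterpathGraph D ∧
    ¬ ∃ G : PlaneDrawing D, DrawnUpward G ∧ AtMostCrossed G 1 := by
  obtain ⟨N, hN⟩ : ∃ N : ℕ, N = 1999999998 := ⟨_, rfl⟩
  have hs : ∀ i : Fin (3 * N + 6), fanD _ none (some i) ∨ fanD _ (some i) none := by
    intro i
    simp only [fanD]
    omega
  have hr : ∀ i j : Fin (3 * N + 6), fanD _ (some i) (some j) ∨ fanD _ (some j) (some i) ↔
      i.val + 1 = j.val ∨ j.val + 1 = i.val := by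
    intro i j
    simp only [fanD]
    tauto
  refine ⟨3 * N + 6, fanD _, ?_, hs, hr, fan_outerpath (by omega) ?_ hs hr, ?_⟩
  · have : ∀ u v, Relation.TransGen (fanD (3 * N + 6)) u v → height u < height v := by
      intro u v h
      induction h with
      | single h => exact height_lt _ _ h
      | tail _ h ih => exact ih.trans (height_lt _ _ h)
    exact fun v h => lt_irrefl _ (this v v h)
  · exact fun u v h h' => lt_asymm (height_lt _ _ h) (height_lt _ _ h')
  · rintro ⟨G, hu, h1⟩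
    obtain ⟨M⟩ := exists_model G hu h1
    refine FanData.no_model (c := none)
      (p := fun k => if h : k < 3 * N + 6 then some ⟨k, h⟩ else none) (N := N) ?_ hN M
    refine ⟨?_, ?_, ?_, ?_, ?_, ?_⟩
    · intro i hi j hj h
      simpa [hi, hj] using h
    · intro i hi
      simp [hi]
    · intro k hk h
      simpa [hk, fanD] using h
    · intro k hk h
      simpa [hk, fanD] using h
    · intro k hk h
      have hk' : k < 3 * N + 6 := by omega
      simp only [dif_pos hk, dif_pos hk', fanD]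
      exact Or.inl ⟨trivial, h⟩
    · intro k hk h
      have hk' : k < 3 * N + 6 := by omega
      simp only [dif_pos hk, dif_pos hk', fanD]
      exact Or.inr ⟨trivial, h⟩

end Pool.Agent.P.MP_c2502c_co
end
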